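import Pool.Agent.SC105.Sw

/-!
# The Cartier operator on `F_p[u]`
-/

namespace Pool.Agent.SC105

open Polynomial

noncomputable section

variable {p : ℕ} [hp : Fact p.Prime]

/-- the Cartier operator -/
def cart (f : (ZMod p)[X]) : (ZMod p)[X] :=
  ∑ n ∈ Finset.range (f.natDegree + 1), C (f.coeff (p * n + (p - 1))) * X ^ n

lemma coeff_cart (f : (ZMod p)[X]) (n : ℕ) : (cart f).coeff n = f.coeff (p * n + (p - 1)) := by
  unfold cart
  rw [finsetSum_coeff]
  simp only [coeff_C_mul_X_pow]
  rw [Finset.sum_ite_eq]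
  by_cases h : n ∈ Finset.range (f.natDegree + 1)
  · rw [if_pos h]
  · rw [if_neg h]
    rw [Finset.mem_range] at h
    symm
    apply coeff_eq_zero_of_natDegree_lt
    have h1 := hp.out.two_le
    nlinarith

lemma cart_add (f g : (ZMod p)[X]) : cart (f + g) = cart f + cart g := by
  ext n; rw [coeff_add, coeff_cart, coeff_cart, coeff_cart, coeff_add]

lemma cart_sub (f g : (ZMod p)[X]) : cart (f - g) = cart f - cart g := by
  ext n; rw [coeff_sub, coeff_cart, coeff_cart, coeff_cart, coeff_sub]

lemma cart_mul_pow (f g : (ZMod p)[X]) : cart (f * g ^ p) = cart f * g := by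
  induction g using Polynomial.induction_on' with
  | add g h hg hh =>
    have : (g + h) ^ p = g ^ p + h ^ p := add_pow_char _ _ _
    rw [this, mul_add, cart_add, hg, hh, mul_add]
  | monomial k a =>
    have h1 : (monomial k a : (ZMod p)[X]) = C a * X ^ k := (C_mul_X_pow_eq_monomial).symm
    have h2 : (monomial k a : (ZMod p)[X]) ^ p = C a * X ^ (k * p) := by
      rw [h1, mul_pow, ← map_pow, ZMod.pow_card, pow_mul]
    rw [h2, h1]
    ext n
    rw [coeff_cart]
    have e1 : f * (C a * X ^ (k * p)) = C a * (f * X ^ (k * p)) := by ring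
    have e2 : cart f * (C a * X ^ k) = C a * (cart f * X ^ k) := by ring
    rw [e1, e2, coeff_C_mul, coeff_C_mul, coeff_mul_X_pow', coeff_mul_X_pow']
    have hp2 := hp.out.two_le
    by_cases h : k ≤ n
    · obtain ⟨j, rfl⟩ := Nat.exists_eq_add_of_le h
      have e3 : p * (k + j) + (p - 1) = k * p + (p * j + (p - 1)) := by ring
      rw [if_pos h, if_pos (by rw [e3]; omega), coeff_cart]
      congr 2
      have e4 : k + j - k = j := by omega
      rw [e4, e3]
      omega
    · rw [if_neg h, if_neg]
      intro h3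
      have h4 : n + 1 ≤ k := by omega
      have h5 : p * (n + 1) ≤ p * k := Nat.mul_le_mul_left p h4
      have h6 : p * (n + 1) = p * n + p := by ring
      have h7 : k * p = p * k := Nat.mul_comm _ _
      omega

lemma cart_half {m : ℕ} (hm : p = 2 * m + 1) :
    cart ((X * (1 - X) : (ZMod p)[X]) ^ m) = C ((-1) ^ m) := by
  have hdeg : (X * (1 - X) : (ZMod p)[X]).natDegree ≤ 2 := by compute_degree
  have hco : (X * (1 - X) : (ZMod p)[X]).coeff 2 = -1 := by
    rw [coeff_X_mul]; simp [coeff_one]
  have hpow : ((X * (1 - X) : (ZMod p)[X]) ^ m).natDegree ≤ m * 2 :=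
    le_trans natDegree_pow_le (Nat.mul_le_mul_left m hdeg)
  ext n
  rw [coeff_cart]
  rcases n with _ | n
  · have e : p * 0 + (p - 1) = m * 2 := by omega
    rw [e, coeff_pow_of_natDegree_le hdeg, hco, coeff_C_zero]
  · rw [coeff_C_succ]
    apply coeff_eq_zero_of_natDegree_lt
    have h1 : p * (n + 1) = p * n + p := by ring
    omega

end

end Pool.Agent.SC105
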