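import Mathlib

/-!
# The certificate for the supercongruence, in polynomial form
-/

namespace Pool.Agent.SC105

section Defs
variable {A : Type*} [CommRing A]

def PP (t u : A) : A := t ^ 3 + 81 * ((5 + 3 * u) * t + 75 * u) ^ 2
def xi (u : A) : A := 3 * u * (2 * u - 5)
def NN (u : A) : A := 100 - 165 * u + 84 * u ^ 2 - 100 * u ^ 3
def MM (u : A) : A := u * (2 * u + 1) ^ 2
def d1 (t u : A) : A := t - xi u
def d2 (t u : A) : A := NN u - MM u * t
def q0 (u : A) : A := -4900 * u ^ 3 + 6492 * u ^ 2 - 12945 * u + 10300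
def q1 (u : A) : A := (2 * u + 1) * (98 * u ^ 2 + 5 * u - 10)
def al (u : A) : A := 210 * u * (14 * u - 5)
def Thn (t u : A) : A := 10 * (q0 u - q1 u * t) * d1 t u + al u * d2 t u
def Bn (t u : A) : A :=
  -3920 * t ^ 3 * u ^ 4 - 6080 * t ^ 3 * u ^ 3 - 1780 * t ^ 3 * u ^ 2 - 380 * t ^ 3 * u + 100 * t ^ 3 - 43320 * t ^ 2 * u ^ 5 - 223880 * t ^ 2 * u ^ 4 + 46770 * t ^ 2 * u ^ 3 - 21900 * t ^ 2 * u ^ 2 - 197500 * t ^ 2 * u + 202500 * t ^ 2 - 2155440 * t * u ^ 5 - 921120 * t * u ^ 4 + 4655700 * t * u ^ 3 - 8020500 * t * u ^ 2 + 5100000 * t * u - 26811000 * u ^ 5 + 55647000 * u ^ 4 - 59838750 * u ^ 3 + 29362500 * u ^ 2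
def BnT (t u : A) : A :=
  -11760 * t ^ 2 * u ^ 4 - 18240 * t ^ 2 * u ^ 3 - 5340 * t ^ 2 * u ^ 2 - 1140 * t ^ 2 * u + 300 * t ^ 2 - 86640 * t * u ^ 5 - 447760 * t * u ^ 4 + 93540 * t * u ^ 3 - 43800 * t * u ^ 2 - 395000 * t * u + 405000 * t - 2155440 * u ^ 5 - 921120 * u ^ 4 + 4655700 * u ^ 3 - 8020500 * u ^ 2 + 5100000 * u
def BnU (t u : A) : A :=
  -15680 * t ^ 3 * u ^ 3 - 18240 * t ^ 3 * u ^ 2 - 3560 * t ^ 3 * u - 380 * t ^ 3 - 216600 * t ^ 2 * u ^ 4 - 895520 * t ^ 2 * u ^ 3 + 140310 * t ^ 2 * u ^ 2 - 43800 * t ^ 2 * u - 197500 * t ^ 2 - 10777200 * t * u ^ 4 - 3684480 * t * u ^ 3 + 13967100 * t * u ^ 2 - 16041000 * t * u + 5100000 * t - 134055000 * u ^ 4 + 222588000 * u ^ 3 - 179516250 * u ^ 2 + 58725000 * u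
def ThT (t u : A) : A :=
  -3920 * t * u ^ 3 - 2160 * t * u ^ 2 + 300 * t * u + 200 * t - 30480 * u ^ 4 - 64840 * u ^ 3 + 67620 * u ^ 2 - 127950 * u + 103000
def ThU (t u : A) : A :=
  -5880 * t ^ 2 * u ^ 2 - 2160 * t ^ 2 * u + 150 * t ^ 2 - 121920 * t * u ^ 3 - 194520 * t * u ^ 2 + 135240 * t * u - 127950 * t - 3090240 * u ^ 3 + 3531600 * u ^ 2 - 4185000 * u + 1440000
def DDT (t u : A) : A :=
  -8 * t * u ^ 3 - 8 * t * u ^ 2 - 2 * t * u + 24 * u ^ 5 - 36 * u ^ 4 - 154 * u ^ 3 + 69 * u ^ 2 - 165 * u + 100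
def DDU (t u : A) : A :=
  -12 * t ^ 2 * u ^ 2 - 8 * t ^ 2 * u - t ^ 2 + 120 * t * u ^ 4 - 144 * t * u ^ 3 - 462 * t * u ^ 2 + 138 * t * u - 165 * t + 3000 * u ^ 4 - 8016 * u ^ 3 + 6750 * u ^ 2 - 6150 * u + 1500
def PT (t u : A) : A :=
  3 * t ^ 2 + 1458 * t * u ^ 2 + 4860 * t * u + 4050 * t + 36450 * u ^ 2 + 60750 * u
def PU (t u : A) : A :=
  1458 * t ^ 2 * u + 2430 * t ^ 2 + 72900 * t * u + 60750 * t + 911250 * u

/-- The algebraic identity behind everything (a polynomial identity in `t, u`). -/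
theorem key_poly (t u : A) :
    2 * u * (1 - u) * (ThU t u * (d1 t u * d2 t u) - Thn t u * DDU t u) * PP t u
      - u * (1 - u) * Thn t u * (d1 t u * d2 t u) * PU t u
      + (1 - 2 * u) * Thn t u * (d1 t u * d2 t u) * PP t u
    = -1785 * u * PU t u * (d1 t u * d2 t u) ^ 2 + 1030 * PP t u * (d1 t u * d2 t u) ^ 2
      + 2 * (BnT t u * (d1 t u * d2 t u) - Bn t u * DDT t u) * PP t u
      - Bn t u * (d1 t u * d2 t u) * PT t u := by
  unfold ThU Thn DDU PU BnT Bn DDT PT d1 d2 q0 q1 al PP xi NN MM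
  ring

end Defs

section Der
variable {A : Type*} [CommRing A]

lemma D_nat (D : Derivation ℤ A A) (n : ℕ) : D (n : A) = 0 := D.map_natCast n

lemma D_ofNat (D : Derivation ℤ A A) (n : ℕ) [n.AtLeastTwo] : D (ofNat(n) : A) = 0 := by
  rw [← Nat.cast_ofNat]
  exact D_nat D _

lemma D_one (D : Derivation ℤ A A) : D (1 : A) = 0 := D.map_one_eq_zero

lemma D_PP (D : Derivation ℤ A A) (t u : A) :
    D (PP t u) = PT t u * D t + PU t u * D u := by
  simp only [PP, map_add, Derivation.leibniz, Derivation.leibniz_pow, smul_eq_mul, D_ofNat,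
    nsmul_eq_mul, mul_zero, zero_add, add_zero, PT, PU]
  push_cast
  ring

lemma D_Thn (D : Derivation ℤ A A) (t u : A) :
    D (Thn t u) = ThT t u * D t + ThU t u * D u := by
  simp only [Thn, q0, q1, d1, d2, al, xi, NN, MM, map_add, map_sub, map_neg, Derivation.leibniz,
    Derivation.leibniz_pow, smul_eq_mul, D_ofNat, D_one, nsmul_eq_mul, mul_zero, zero_add, add_zero,
    ThT, ThU]
  push_cast
  ring

lemma D_DD (D : Derivation ℤ A A) (t u : A) :
    D (d1 t u * d2 t u) = DDT t u * D t + DDU t u * D u := by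
  simp only [d1, d2, xi, NN, MM, map_add, map_sub, map_neg, Derivation.leibniz,
    Derivation.leibniz_pow, smul_eq_mul, D_ofNat, D_one, nsmul_eq_mul, mul_zero, zero_add, add_zero,
    DDT, DDU]
  push_cast
  ring

lemma D_Bn (D : Derivation ℤ A A) (t u : A) :
    D (Bn t u) = BnT t u * D t + BnU t u * D u := by
  simp only [Bn, map_add, map_sub, map_neg, Derivation.leibniz,
    Derivation.leibniz_pow, smul_eq_mul, D_ofNat, D_one, nsmul_eq_mul, mul_zero, zero_add, add_zero,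
    BnT, BnU]
  push_cast
  ring

/-- The certificate: `Dt` and `Du` are the partial derivations, `E` behaves like `PP^(-1/2)` and
`G` like `1/(d1 d2)`. -/
theorem cert (Dt Du : Derivation ℤ A A) (t u E F G : A) (h1 : Dt t = 1) (h2 : Dt u = 0)
    (h3 : Du t = 0) (h4 : Du u = 1) (hE : E = PP t u * F)
    (hEt : 2 * Dt E = -(Dt (PP t u) * F)) (hEu : 2 * Du E = -(Du (PP t u) * F))
    (hGt : d1 t u * d2 t u * Dt G = -(Dt (d1 t u * d2 t u) * G))
    (hGu : d1 t u * d2 t u * Du G = -(Du (d1 t u * d2 t u) * G)) :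
    d1 t u * d2 t u * (2 * u * (1 - u) * Du (Thn t u * G * E) + (1 - 2 * u) * (Thn t u * G * E)) =
    d1 t u * d2 t u * (10 * (d1 t u * d2 t u * G) * (357 * u * Du E + 103 * E)
      + 2 * Dt (Bn t u * G * E)) := by
  have kp := key_poly t u
  rw [D_PP, h1, h2] at hEt
  rw [D_PP, h3, h4] at hEu
  rw [D_DD, h1, h2] at hGt
  rw [D_DD, h3, h4] at hGu
  simp only [Derivation.leibniz, smul_eq_mul, D_Thn, D_Bn, h1, h2, h3, h4]
  linear_combination (2 * u * (1 - u) * Thn t u * E) * hGu - (2 * Bn t u * E) * hGt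
    + (u * (1 - u) * Thn t u * (d1 t u * d2 t u) * G
        - 1785 * u * (d1 t u * d2 t u) ^ 2 * G) * hEu
    - (Bn t u * (d1 t u * d2 t u) * G) * hEt
    + (G * (2 * u * (1 - u) * (ThU t u * (d1 t u * d2 t u) - Thn t u * DDU t u)
        + (1 - 2 * u) * Thn t u * (d1 t u * d2 t u) - 1030 * (d1 t u * d2 t u) ^ 2
        - 2 * (BnT t u * (d1 t u * d2 t u) - Bn t u * DDT t u))) * hE
    + G * F * kp

end Der

end Pool.Agent.SC105
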