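import Pool.Agent.SC105.Rec

/-!
# The coefficients of `PP ^ M`
-/

namespace Pool.Agent.SC105

open Polynomial

noncomputable section

section Lin
variable {S : Type*} [CommRing S]

lemma coeff_lin_pow (a b : S) (m j : ℕ) :
    ((C a * X + C b) ^ m).coeff j = a ^ j * b ^ (m - j) * (m.choose j : S) := by
  rw [add_pow, finsetSum_coeff]
  have h : ∀ i ∈ Finset.range (m + 1),
      ((C a * X) ^ i * C b ^ (m - i) * (m.choose i : S[X])).coeff j =
      if i = j then a ^ j * b ^ (m - j) * (m.choose j : S) else 0 := by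
    intro i _
    have e : (C a * X) ^ i * C b ^ (m - i) * (m.choose i : S[X]) =
        C (a ^ i * b ^ (m - i) * (m.choose i : S)) * X ^ i := by
      rw [mul_pow, map_mul, map_mul, map_pow, map_pow, map_natCast]; ring
    rw [e, coeff_C_mul_X_pow]
    by_cases hij : i = j
    · subst hij; simp
    · rw [if_neg (fun h => hij h.symm), if_neg hij]
  rw [Finset.sum_congr rfl h, Finset.sum_ite_eq']
  by_cases hj : j ∈ Finset.range (m + 1)
  · rw [if_pos hj]
  · rw [if_neg hj]
    have : m < j := by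
      rw [Finset.mem_range] at hj; omega
    rw [Nat.choose_eq_zero_of_lt this]; simp

end Lin

section Coef
variable {R : Type*} [CommRing R]

lemma PP_lin : (PP tt uu : R[X][X]) =
    X ^ 3 + 81 * (C (C 3 * X + C 5) * X + C (C 75 * X)) ^ 2 := by
  unfold PP
  simp only [map_add, map_mul, map_ofNat]
  ring

/-- the polynomial `[t^(2M)] PP^M` -/
lemma Et_eq (M : ℕ) : Et R (2 * M + 1) M =
    ∑ k ∈ Finset.range (M + 1), if 3 * k ≤ 2 * M then
      C (81 ^ (M - k) * 75 ^ k * ((2 * M - 2 * k).choose (2 * M - 3 * k) : R) * (M.choose k : R))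
        * (X ^ k * (C 3 * X + C 5) ^ (2 * M - 3 * k)) else 0 := by
  unfold Et
  rw [PP_lin, add_pow, finsetSum_coeff]
  apply Finset.sum_congr rfl
  intro k hk
  have hk' : k ≤ M := by rw [Finset.mem_range] at hk; omega
  have hC : (C (C (81 ^ (M - k) * (M.choose k : R))) : R[X][X]) =
      81 ^ (M - k) * (M.choose k : R[X][X]) := by
    simp only [map_mul, map_pow, map_natCast, map_ofNat]
  have e : ((X ^ 3) ^ k * (81 * (C (C 3 * X + C 5) * X + C (C 75 * X)) ^ 2) ^ (M - k)
      * (M.choose k : R[X][X])) =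
      X ^ (3 * k) * (C (C (81 ^ (M - k) * (M.choose k : R))) *
        (C (C 3 * X + C 5) * X + C (C 75 * X)) ^ (2 * (M - k))) := by
    rw [hC, ← pow_mul, mul_pow, ← pow_mul]
    ring
  rw [e, coeff_X_pow_mul']
  have e2 : 2 * M + 1 - 1 = 2 * M := by omega
  rw [e2]
  by_cases h : 3 * k ≤ 2 * M
  · rw [if_pos h, if_pos h, coeff_C_mul, coeff_lin_pow]
    have e3 : 2 * (M - k) - (2 * M - 3 * k) = k := by omega
    have e4 : 2 * (M - k) = 2 * M - 2 * k := by omega
    rw [e3, e4]
    simp only [map_mul, map_pow, map_natCast]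
    ring
  · rw [if_neg h, if_neg h]

lemma Et_coeff {M n : ℕ} (hn : 3 * n ≤ 2 * M) : (Et R (2 * M + 1) M).coeff n =
    ∑ k ∈ Finset.range (n + 1),
      81 ^ (M - k) * 75 ^ k * ((2 * M - 2 * k).choose (2 * M - 3 * k) : R) * (M.choose k : R)
        * (3 ^ (n - k) * 5 ^ (2 * M - 3 * k - (n - k)) * ((2 * M - 3 * k).choose (n - k) : R)) := by
  rw [Et_eq, finsetSum_coeff]
  have hsub : Finset.range (n + 1) ⊆ Finset.range (M + 1) := by
    apply Finset.range_subset_range.2; omega
  rw [← Finset.sum_subset hsub]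
  · apply Finset.sum_congr rfl
    intro k hk
    have hk' : k ≤ n := by rw [Finset.mem_range] at hk; omega
    rw [if_pos (by omega), coeff_C_mul, coeff_X_pow_mul', if_pos hk', coeff_lin_pow]
  · intro k hk hk2
    have hk' : n < k := by
      rw [Finset.mem_range] at hk2; omega
    by_cases h : 3 * k ≤ 2 * M
    · rw [if_pos h, coeff_C_mul, coeff_X_pow_mul', if_neg (by omega), mul_zero]
    · rw [if_neg h, coeff_zero]

end Coef

end

end Pool.Agent.SC105
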