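import Pool.Agent.SC105.Coef

/-!
# The numbers `g n` as coefficients
-/

namespace Pool.Agent.SC105

open Polynomial

/-- `f n = C(2n,n) * g n` -/
def g (n : ℕ) : ℤ := ∑ k ∈ Finset.range (n + 1), (Nat.choose n k : ℤ) *
  (Nat.choose (n + 2 * k) (2 * k) : ℤ) * (Nat.choose (2 * k) k : ℤ) * (-324 : ℤ) ^ (n - k)

section
variable {R : Type*} [CommRing R]

lemma choose_half {p M : ℕ} (hM : (2 * M : R) = -1) (hpM : p ≤ M + 1)
    (hu : ∀ i : ℕ, 0 < i → i < p → IsUnit (i : R)) :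
    ∀ k, k < p → (M.choose k : R) * 4 ^ k = (-1) ^ k * ((2 * k).choose k : R) := by
  intro k
  induction k with
  | zero => intro _; simp
  | succ k ih =>
    intro hk
    have ih' := ih (by omega)
    have hk1 : IsUnit ((k + 1 : ℕ) : R) := hu (k + 1) (by omega) hk
    apply hk1.mul_left_cancel
    have h1 : ((M.choose (k + 1) : ℕ) : R) * ((k + 1 : ℕ) : R) =
        ((M.choose k : ℕ) : R) * ((M : R) - k) := by
      have := congrArg (Nat.cast : ℕ → R) (Nat.choose_succ_right_eq M k)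
      rw [Nat.cast_mul, Nat.cast_mul, Nat.cast_sub (by omega)] at this
      exact this
    have h2 : ((k + 1 : ℕ) : R) * (((2 * (k + 1)).choose (k + 1) : ℕ) : R) =
        2 * (2 * k + 1) * (((2 * k).choose k : ℕ) : R) := by
      have := congrArg (Nat.cast : ℕ → R) (Nat.succ_mul_centralBinom_succ k)
      unfold Nat.centralBinom at this
      push_cast at this ⊢
      exact this
    have e : ((k + 1 : ℕ) : R) * ((M.choose (k + 1) : R) * 4 ^ (k + 1)) =
        ((M.choose (k + 1) : R) * ((k + 1 : ℕ) : R)) * 4 ^ (k + 1) := by ring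
    have e' : ((k + 1 : ℕ) : R) * ((-1) ^ (k + 1) * (((2 * (k + 1)).choose (k + 1) : ℕ) : R)) =
        (-1) ^ (k + 1) * (((k + 1 : ℕ) : R) * (((2 * (k + 1)).choose (k + 1) : ℕ) : R)) := by ring
    rw [e, h1, e', h2]
    linear_combination (4 * ((M : R) - k)) * ih' +
      (2 * (-1) ^ k * (((2 * k).choose k : ℕ) : R)) * hM

lemma choose_neg {p M k : ℕ} (hM : (2 * M : R) = -1)
    (hu : ∀ i : ℕ, 0 < i → i < p → IsUnit (i : R)) :
    ∀ n, n < p → n + 2 * k ≤ 2 * M →
      (((2 * M - 2 * k).choose n : ℕ) : R) = (-1) ^ n * (((n + 2 * k).choose n : ℕ) : R) := by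
  intro n
  induction n with
  | zero => intro _ _; simp
  | succ n ih =>
    intro hn hM2
    have ih' := ih (by omega) (by omega)
    have hk1 : IsUnit ((n + 1 : ℕ) : R) := hu (n + 1) (by omega) hn
    apply hk1.mul_left_cancel
    have h1 : (((2 * M - 2 * k).choose (n + 1) : ℕ) : R) * ((n + 1 : ℕ) : R) =
        (((2 * M - 2 * k).choose n : ℕ) : R) * (2 * M - 2 * k - n) := by
      have := congrArg (Nat.cast : ℕ → R) (Nat.choose_succ_right_eq (2 * M - 2 * k) n)
      rw [Nat.cast_mul, Nat.cast_mul, Nat.cast_sub (by omega), Nat.cast_sub (by omega)] at this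
      push_cast at this ⊢
      exact this
    have h2 : ((n + 1 : ℕ) : R) * (((n + 1 + 2 * k).choose (n + 1) : ℕ) : R) =
        (n + 2 * k + 1) * (((n + 2 * k).choose n : ℕ) : R) := by
      have := congrArg (Nat.cast : ℕ → R) (Nat.add_one_mul_choose_eq (n + 2 * k) n)
      have e3 : n + 1 + 2 * k = n + 2 * k + 1 := by omega
      rw [e3]
      rw [Nat.cast_mul, Nat.cast_mul] at this
      push_cast at this ⊢
      rw [mul_comm, ← this]
    have e : ((n + 1 : ℕ) : R) * (((2 * M - 2 * k).choose (n + 1) : ℕ) : R) =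
        (((2 * M - 2 * k).choose (n + 1) : ℕ) : R) * ((n + 1 : ℕ) : R) := by ring
    have e' : ((n + 1 : ℕ) : R) * ((-1) ^ (n + 1) * (((n + 1 + 2 * k).choose (n + 1) : ℕ) : R)) =
        (-1) ^ (n + 1) * (((n + 1 : ℕ) : R) * (((n + 1 + 2 * k).choose (n + 1) : ℕ) : R)) := by
      ring
    rw [e, h1, e', h2, ih']
    linear_combination ((-1) ^ n * (((n + 2 * k).choose n : ℕ) : R)) * hM

theorem Et_g {p M : ℕ} (hM : (2 * M : R) = -1)
    (hu : ∀ i : ℕ, 0 < i → i < p → IsUnit (i : R)) (hpM : 3 * p ≤ 2 * M) {n : ℕ} (hn : n < p) :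
    540 ^ n * (Et R (2 * M + 1) M).coeff n = 45 ^ (2 * M) * (g n : R) := by
  rw [Et_coeff (by omega), Finset.mul_sum]
  unfold g
  rw [Int.cast_sum, Finset.mul_sum]
  apply Finset.sum_congr rfl
  intro k hk
  have hk' : k ≤ n := by rw [Finset.mem_range] at hk; omega
  have hch : ((2 * M - 2 * k).choose (2 * M - 3 * k)) * ((2 * M - 3 * k).choose (n - k)) =
      (2 * M - 2 * k).choose n * n.choose k := by
    rw [Nat.choose_mul hk']
    have e1 : 2 * M - 2 * k - k = 2 * M - 3 * k := by omega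
    rw [e1]
    congr 1
    have e2 : (2 * M - 2 * k) - k = 2 * M - 3 * k := by omega
    rw [← e2, Nat.choose_symm (by omega)]
  have hch' := congrArg (Nat.cast : ℕ → R) hch
  rw [Nat.cast_mul, Nat.cast_mul, choose_neg hM hu n hn (by omega)] at hch'
  have hhalf := choose_half hM (by omega : p ≤ M + 1) hu k (by omega)
  have hsym : (n + 2 * k).choose n = (n + 2 * k).choose (2 * k) := by
    rw [← Nat.choose_symm (by omega : 2 * k ≤ n + 2 * k)]
    congr 1; omega
  rw [hsym] at hch'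
  obtain ⟨m, rfl⟩ : ∃ m, n = k + m := ⟨n - k, by omega⟩
  obtain ⟨j, rfl⟩ : ∃ j, M = k + j := ⟨M - k, by omega⟩
  obtain ⟨r, hr⟩ : ∃ r, 2 * (k + j) = 3 * k + m + r := ⟨2 * (k + j) - (3 * k + m), by omega⟩
  have e3 : k + m - k = m := by omega
  have e4 : k + j - k = j := by omega
  have e5 : 2 * (k + j) - 3 * k - (k + m - k) = r := by omega
  rw [e3] at hch'
  rw [e5, e4, e3]
  have h1 : (540 : R) ^ k * 75 ^ k = 81 ^ k * 4 ^ k * (5 ^ 3) ^ k := by
    rw [← mul_pow, ← mul_pow, ← mul_pow]; norm_num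
  have h2 : (540 : R) ^ m * 3 ^ m = 324 ^ m * 5 ^ m := by
    rw [← mul_pow, ← mul_pow]; norm_num
  have h3 : (45 : R) ^ (2 * (k + j)) = 81 ^ (k + j) * ((5 ^ 3) ^ k * 5 ^ m * 5 ^ r) := by
    have : (45 : R) ^ (2 * (k + j)) = (9 * 5) ^ (2 * (k + j)) := by norm_num
    rw [this, mul_pow]
    congr 1
    · rw [pow_mul]; norm_num
    · rw [hr, pow_add, pow_add, pow_mul]
  have h4 : ((-324 : ℤ) : R) ^ m = (-1) ^ m * 324 ^ m := by
    rw [← mul_pow]; congr 1; push_cast; ring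
  push_cast
  push_cast at h4
  rw [h3, h4]
  have hs : ((-1) ^ (k + m) * (-1) ^ k : R) = (-1) ^ m := by
    rw [pow_add]
    have : ((-1 : R) ^ k * (-1) ^ k) = 1 := by rw [← mul_pow]; norm_num
    linear_combination ((-1 : R) ^ m) * this
  generalize (((2 * (k + j) - 2 * k).choose (2 * (k + j) - 3 * k) : ℕ) : R) = a at *
  generalize (((2 * (k + j) - 3 * k).choose m : ℕ) : R) = c at *
  generalize (((k + j).choose k : ℕ) : R) = b at *
  generalize (((k + m + 2 * k).choose (2 * k) : ℕ) : R) = d at *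
  generalize (((k + m).choose k : ℕ) : R) = e at *
  generalize (((2 * k).choose k : ℕ) : R) = f at *
  linear_combination (540 ^ m * 81 ^ j * 3 ^ m * 5 ^ r * a * b * c) * h1
    + (81 ^ k * 4 ^ k * (5 ^ 3) ^ k * 81 ^ j * 5 ^ r * a * b * c) * h2
    + (81 ^ k * 4 ^ k * (5 ^ 3) ^ k * 324 ^ m * 5 ^ m * 81 ^ j * 5 ^ r * b) * hch'
    + (81 ^ k * (5 ^ 3) ^ k * 324 ^ m * 5 ^ m * 81 ^ j * 5 ^ r * (-1) ^ (k + m) * d * e) * hhalf
    + (81 ^ k * (5 ^ 3) ^ k * 324 ^ m * 5 ^ m * 81 ^ j * 5 ^ r * d * e * f) * hs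

end

end Pool.Agent.SC105
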