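import Pool.Agent.SC105.Val

/-!
# The supercongruence
-/

namespace Pool.Agent.SC105

open Polynomial

section
variable {p : ℕ} [hp : Fact p.Prime]

/-- reduction modulo `p` -/
def redp (p : ℕ) : ZMod (p ^ 2) →+* ZMod p := ZMod.castHom (dvd_pow_self p two_ne_zero) (ZMod p)

omit hp in
lemma mul_p_congr {x y : ZMod (p ^ 2)} (h : redp p x = redp p y) :
    (p : ZMod (p ^ 2)) * x = p * y := by
  obtain ⟨a, rfl⟩ := ZMod.intCast_surjective x
  obtain ⟨b, rfl⟩ := ZMod.intCast_surjective y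
  rw [map_intCast, map_intCast, ZMod.intCast_eq_intCast_iff] at h
  have h1 : (p : ℤ) * a ≡ p * b [ZMOD ((p ^ 2 : ℕ) : ℤ)] := by
    push_cast
    rw [pow_two]
    exact Int.ModEq.mul_left' h
  have h2 := (ZMod.intCast_eq_intCast_iff _ _ (p ^ 2)).2 h1
  push_cast at h2
  exact h2

lemma unit_of_lt {i : ℕ} (h0 : 0 < i) (hi : i < p) : IsUnit (i : ZMod (p ^ 2)) := by
  rw [ZMod.isUnit_iff_coprime]
  apply Nat.Coprime.pow_right
  exact ((Nat.Prime.coprime_iff_not_dvd hp.out).2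
    (fun h => absurd (Nat.le_of_dvd h0 h) (by omega))).symm

lemma unit_of_smooth (h5 : 5 < p) {a : ℕ} (hs : ∀ q : ℕ, q.Prime → q ∣ a → q ≤ 5) :
    IsUnit (a : ZMod (p ^ 2)) := by
  rw [ZMod.isUnit_iff_coprime]
  apply Nat.Coprime.pow_right
  exact ((Nat.Prime.coprime_iff_not_dvd hp.out).2
    (fun h => absurd (hs p hp.out h) (by omega))).symm

lemma central (p : ℕ) (h1 : 1 ≤ p) :
    (2 * p - 1) * (2 * (p - 1)).choose (p - 1) = p * (2 * p - 1).choose p := by
  obtain ⟨n, rfl⟩ : ∃ n, p = n + 1 := ⟨p - 1, by omega⟩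
  have h := Nat.add_one_mul_choose_eq (2 * n) n
  have e1 : 2 * (n + 1) - 1 = 2 * n + 1 := by omega
  rw [e1, Nat.add_sub_cancel, h, mul_comm]

lemma choose_one : (((2 * p - 1).choose p : ℕ) : ZMod p) = 1 := by
  have hp2 := hp.out.two_le
  have h := Choose.choose_modEq_choose_mod_mul_choose_div_nat (n := 2 * p - 1) (k := p) (p := p)
  have e1 : (2 * p - 1) % p = p - 1 := by
    have : 2 * p - 1 = p - 1 + p * 1 := by omega
    rw [this, Nat.add_mul_mod_self_left, Nat.mod_eq_of_lt (by omega)]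
  have e2 : (2 * p - 1) / p = 1 := by
    have : 2 * p - 1 = p - 1 + p * 1 := by omega
    rw [this, Nat.add_mul_div_left _ _ hp.out.pos, Nat.div_eq_of_lt (by omega)]
  rw [e1, e2, Nat.mod_self, Nat.div_self hp.out.pos, Nat.choose_zero_right, Nat.choose_self,
    one_mul] at h
  have h2 := (ZMod.natCast_eq_natCast_iff _ _ _).2 h
  rw [h2, Nat.cast_one]

lemma neg_one_sym {m : ℕ} (hm : p = 2 * m + 1) :
    ((jacobiSym (-1) p : ℤ) : ZMod p) = (-1) ^ m := by
  rw [← jacobiSym.legendreSym.to_jacobiSym, legendreSym.eq_pow]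
  have e : p / 2 = m := by omega
  rw [e]
  push_cast
  ring

lemma fifteen_sym {m : ℕ} (hm : p = 2 * m + 1) (h5 : 5 < p) :
    (49000 : ZMod p) * 26460 ^ m = 49000 * ((-1) ^ m * ((jacobiSym (p : ℤ) 15 : ℤ) : ZMod p)) := by
  by_cases h42 : (42 : ZMod p) = 0
  · have h0 : (49000 : ZMod p) = 0 := by
      have hd : p ∣ 42 := by
        rw [← ZMod.natCast_eq_zero_iff]
        exact_mod_cast h42
      have hd2 : (42 : ℕ) = 2 * (3 * 7) := by norm_num
      rw [hd2] at hd
      rcases (Nat.Prime.dvd_mul hp.out).1 hd with h | h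
      · exact absurd (Nat.le_of_dvd (by norm_num) h) (by omega)
      · rcases (Nat.Prime.dvd_mul hp.out).1 h with h | h
        · exact absurd (Nat.le_of_dvd (by norm_num) h) (by omega)
        · have : (49000 : ℕ) = 7 * 7000 := by norm_num
          have h2 : p ∣ 49000 := by rw [this]; exact Dvd.dvd.mul_right h _
          have := (ZMod.natCast_eq_zero_iff 49000 p).2 h2
          exact_mod_cast this
    rw [h0, zero_mul, zero_mul]
  · have e : (26460 : ZMod p) = 42 ^ 2 * 15 := by norm_num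
    rw [e, mul_pow, pow_half 42 h42 hm, one_mul]
    have h15 : (15 : ZMod p) ^ m = ((jacobiSym 15 p : ℤ) : ZMod p) := by
      have h := legendreSym.eq_pow p 15
      rw [jacobiSym.legendreSym.to_jacobiSym] at h
      have e2 : p / 2 = m := by omega
      rw [e2] at h
      rw [h]
      push_cast
      rfl
    have hq := jacobiSym.quadratic_reciprocity (a := 15) (b := p) (by decide) ⟨m, hm⟩
    have e3 : ((15 : ℕ) : ℤ) = 15 := rfl
    have e4 : 15 / 2 * (p / 2) = 7 * m := by omega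
    rw [e3, e4, pow_mul] at hq
    have e5 : ((-1 : ℤ) ^ 7) = -1 := by norm_num
    rw [e5] at hq
    rw [h15, hq]
    push_cast
    ring

omit hp in
lemma choose_2p_1 (hm2 : 1 ≤ p) : (2 * (p : ZMod (p ^ 2)) - 1) *
    ((2 * (p - 1)).choose (p - 1) : ZMod (p ^ 2)) = p * ((2 * p - 1).choose p : ℕ) := by
  have h := congrArg (Nat.cast : ℕ → ZMod (p ^ 2)) (central p hm2)
  rw [Nat.cast_mul, Nat.cast_mul, Nat.cast_sub (by omega)] at h
  rw [← h]
  push_cast
  ring

/-- The supercongruence in `ZMod (p ^ 2)`. -/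
theorem congr_ZMod {m : ℕ} (hm : p = 2 * m + 1) (h5 : 5 < p) :
    ∑ n ∈ Finset.range p, (357 * n + 103) * (((2 * n).choose n : ZMod (p ^ 2)) *
      (g n : ZMod (p ^ 2))) * 2160 ^ (p - 1 - n) =
    2160 ^ (p - 1) * (p * ((jacobiSym (-1) p : ℤ) : ZMod (p ^ 2)) *
      (54 + 49 * ((jacobiSym (p : ℤ) 15 : ℤ) : ZMod (p ^ 2)))) := by
  have hp0 := hp.out.pos
  have eK : 2 * (m * (p + 1)) + 1 = p * p := by rw [hm]; ring
  have h2 : IsUnit (2 : ZMod (p ^ 2)) := by
    have := unit_of_lt (p := p) (i := 2) (by norm_num) (by omega)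
    exact_mod_cast this
  have hK : ((2 * (m * (p + 1)) + 1 : ℕ) : ZMod (p ^ 2)) = 0 := by
    rw [eK, ← pow_two]
    exact ZMod.natCast_self _
  have hm3 : 3 ≤ m := by omega
  have hM1 : 1 ≤ m * (p + 1) := Nat.mul_pos (by omega) (by omega)
  have hpM : 3 * p ≤ 2 * (m * (p + 1)) := by
    have : 3 * (p + 1) ≤ m * (p + 1) := Nat.mul_le_mul_right _ hm3
    omega
  have key := tele (p := p) h2 hK hM1 (by omega) (fun i hi hip => unit_of_lt hi hip) hpM
  rw [choose_2p_1 (by omega)] at key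
  have hu45 : IsUnit (45 : ZMod (p ^ 2)) := by
    have := unit_of_smooth (p := p) h5 (a := 45) (by
      intro q hq h
      have h2 : (45 : ℕ) = 3 ^ 2 * 5 := by norm_num
      rw [h2] at h
      rcases (Nat.Prime.dvd_mul hq).1 h with h | h
      · have := Nat.le_of_dvd (by norm_num) (hq.dvd_of_dvd_pow h); omega
      · exact Nat.le_of_dvd (by norm_num) h)
    exact_mod_cast this
  have hu100 : IsUnit (100 : ZMod (p ^ 2)) := by
    have := unit_of_smooth (p := p) h5 (a := 100) prime_le_five_100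
    exact_mod_cast this
  have hu10 : IsUnit (10 : ZMod (p ^ 2)) := by
    have h10 : (100 : ZMod (p ^ 2)) = 10 * 10 := by norm_num
    rw [h10] at hu100
    exact isUnit_of_mul_isUnit_left hu100
  have hua : IsUnit ((45 : ZMod (p ^ 2)) ^ (2 * (m * (p + 1))) * 10 *
      100 ^ (2 * (m * (p + 1)) + 1)) :=
    ((hu45.pow _).mul hu10).mul (hu100.pow _)
  apply hua.mul_left_cancel
  rw [key]
  have e1 : (540 : ZMod (p ^ 2)) ^ (p - 1) * ((p : ZMod (p ^ 2)) *
      (((2 * p - 1).choose p : ℕ) : ZMod (p ^ 2)) *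
      (Psi (ZMod (p ^ 2)) (2 * (m * (p + 1)) + 1) (m * (p + 1))).coeff (p - 1)) =
      (p : ZMod (p ^ 2)) * (540 ^ (p - 1) * ((((2 * p - 1).choose p : ℕ) : ZMod (p ^ 2)) *
      (Psi (ZMod (p ^ 2)) (2 * (m * (p + 1)) + 1) (m * (p + 1))).coeff (p - 1))) := by ring
  have e2 : (45 : ZMod (p ^ 2)) ^ (2 * (m * (p + 1))) * 10 * 100 ^ (2 * (m * (p + 1)) + 1) *
      (2160 ^ (p - 1) * ((p : ZMod (p ^ 2)) * ((jacobiSym (-1) p : ℤ) : ZMod (p ^ 2)) *
      (54 + 49 * ((jacobiSym (p : ℤ) 15 : ℤ) : ZMod (p ^ 2))))) =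
      (p : ZMod (p ^ 2)) * ((45 : ZMod (p ^ 2)) ^ (2 * (m * (p + 1))) * 10 * 100 ^ (2 * (m * (p + 1)) + 1) *
      (2160 ^ (p - 1) * (((jacobiSym (-1) p : ℤ) : ZMod (p ^ 2)) *
      (54 + 49 * ((jacobiSym (p : ℤ) 15 : ℤ) : ZMod (p ^ 2)))))) := by ring
  rw [e1, e2]
  apply mul_p_congr
  simp only [map_mul, map_pow, map_add, map_ofNat, map_natCast, map_intCast, Psi_map]
  have n45 : (45 : ZMod p) ^ (2 * (m * (p + 1))) = 1 := by
    have e : 2 * (m * (p + 1)) = (p - 1) * (p + 1) := by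
      have : p - 1 = 2 * m := by omega
      rw [this]; ring
    rw [e, pow_mul, ZMod.pow_card_sub_one_eq_one (ne_45 h5), one_pow]
  have n100 : (100 : ZMod p) ^ (2 * (m * (p + 1)) + 1) = 100 := by
    rw [eK, pow_mul, ZMod.pow_card, ZMod.pow_card]
  have n540 : (540 : ZMod p) ^ (p - 1) = 1 := by
    apply ZMod.pow_card_sub_one_eq_one
    have := natCast_ne h5 (a := 540) (by
      intro q hq h
      have h2 : (540 : ℕ) = 2 ^ 2 * (3 ^ 3 * 5) := by norm_num
      rw [h2] at h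
      rcases (Nat.Prime.dvd_mul hq).1 h with h | h
      · have := Nat.le_of_dvd (by norm_num) (hq.dvd_of_dvd_pow h); omega
      · rcases (Nat.Prime.dvd_mul hq).1 h with h | h
        · have := Nat.le_of_dvd (by norm_num) (hq.dvd_of_dvd_pow h); omega
        · exact Nat.le_of_dvd (by norm_num) h)
    exact_mod_cast this
  have n2160 : (2160 : ZMod p) ^ (p - 1) = 1 := by
    have h4 : (4 : ZMod p) ^ (p - 1) = 1 := by
      apply ZMod.pow_card_sub_one_eq_one
      have := natCast_ne h5 (a := 4) (by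
        intro q hq h
        have := Nat.le_of_dvd (by norm_num) h; omega)
      exact_mod_cast this
    have e : (2160 : ZMod p) = 4 * 540 := by norm_num
    rw [e, mul_pow, h4, n540, one_mul]
  rw [n45, n100, n540, n2160, choose_one, eK, Psi_value hm h5, neg_one_sym hm,
    fifteen_sym hm h5]
  ring

/-- The supercongruence. -/
theorem congr_int (h5 : 5 < p) :
    (∑ n ∈ Finset.range p, (357 * (n : ℤ) + 103) * (((2 * n).choose n : ℤ) * g n) *
      (2160 : ℤ) ^ (p - 1 - n)) ≡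
    (2160 : ℤ) ^ (p - 1) * ((p : ℤ) * jacobiSym (-1) p * (54 + 49 * jacobiSym (p : ℤ) 15))
      [ZMOD (p : ℤ) ^ 2] := by
  have hodd : Odd p := hp.out.odd_of_ne_two (by omega)
  obtain ⟨m, hm⟩ := hodd
  have h := congr_ZMod hm h5
  have h2 := (ZMod.intCast_eq_intCast_iff
    (∑ n ∈ Finset.range p, (357 * (n : ℤ) + 103) * (((2 * n).choose n : ℤ) * g n) *
      (2160 : ℤ) ^ (p - 1 - n))
    ((2160 : ℤ) ^ (p - 1) * ((p : ℤ) * jacobiSym (-1) p * (54 + 49 * jacobiSym (p : ℤ) 15)))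
    (p ^ 2)).1 (by push_cast; exact h)
  rw [Nat.cast_pow] at h2
  exact h2

end

end Pool.Agent.SC105
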