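import Pool.Agent.SC105.Cert

/-!
# The two derivations on `R[u][t]` and the differential equation of the `t`-coefficient
-/

namespace Pool.Agent.SC105

open Polynomial

noncomputable section

section Setup
variable (R : Type*) [CommRing R]

/-- coefficientwise derivative structure on `R[u]` -/
@[reducible] def diffPoly : Differential (R[X]) :=
  ⟨(Polynomial.derivative' (R := R)).restrictScalars ℤ⟩

def DT : Derivation ℤ R[X][X] R[X][X] :=
  (Polynomial.derivative' (R := R[X])).restrictScalars ℤ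

def DU : Derivation ℤ R[X][X] R[X][X] :=
  @Differential.mapCoeffs (R[X]) _ (diffPoly R)

variable {R}

lemma DT_coeff (F : R[X][X]) (n : ℕ) : (DT R F).coeff n = F.coeff (n + 1) * (n + 1) := by
  change (derivative F).coeff n = _
  rw [coeff_derivative]

lemma DU_coeff (F : R[X][X]) (n : ℕ) : (DU R F).coeff n = derivative (F.coeff n) := by
  let _ := diffPoly R
  exact Differential.coeff_mapCoeffs F n

abbrev tt : R[X][X] := X
abbrev uu : R[X][X] := C X

lemma DT_t : DT R tt = 1 := by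
  change derivative (X : R[X][X]) = 1
  simp

lemma DT_u : DT R uu = 0 := by
  change derivative (C X : R[X][X]) = 0
  simp

lemma DU_t : DU R tt = 0 := by
  ext n m
  rw [DU_coeff]
  by_cases h : n = 1
  · subst h; simp
  · rw [coeff_X_of_ne_one h]; simp

lemma DU_u : DU R uu = 1 := by
  ext n m
  rw [DU_coeff]
  by_cases h : n = 0
  · subst h; simp
  · rw [coeff_C_of_ne_zero h, coeff_one, if_neg h]; simp

end Setup

section Ring
variable {A : Type*} [CommRing A]

lemma D_pow_zero (D : Derivation ℤ A A) (x : A) {K : ℕ} (hK : (K : A) = 0) : D (x ^ K) = 0 := by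
  rw [Derivation.leibniz_pow, smul_eq_mul, nsmul_eq_mul, hK, zero_mul]

lemma D_geom (D : Derivation ℤ A A) {d G x y : A} {K : ℕ} (hK : (K : A) = 0)
    (h : d * G = x ^ K - y ^ K) : d * D G = -(D d * G) := by
  have h1 := congrArg D h
  rw [Derivation.leibniz, map_sub, D_pow_zero D x hK, D_pow_zero D y hK, sub_zero, smul_eq_mul,
    smul_eq_mul] at h1
  linear_combination h1

lemma D_prod (D : Derivation ℤ A A) {e1 e2 G1 G2 : A} (h1 : e1 * D G1 = -(D e1 * G1))
    (h2 : e2 * D G2 = -(D e2 * G2)) :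
    e1 * e2 * D (G1 * G2) = -(D (e1 * e2) * (G1 * G2)) := by
  rw [Derivation.leibniz, Derivation.leibniz, smul_eq_mul, smul_eq_mul, smul_eq_mul, smul_eq_mul]
  linear_combination (e2 * G2) * h1 + (e1 * G1) * h2

lemma D_halfpow (D : Derivation ℤ A A) {P : A} {M : ℕ} (hM : (2 * M : A) = -1) :
    2 * D (P ^ M) = -(D P * P ^ (M - 1)) := by
  rw [Derivation.leibniz_pow, smul_eq_mul, nsmul_eq_mul]
  linear_combination (P ^ (M - 1) * D P) * hM

end Ring

section Objects
variable {A : Type*} [CommRing A]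

def G1 (K : ℕ) (t u : A) : A := ∑ i ∈ Finset.range K, t ^ i * (xi u) ^ (K - 1 - i)
def G2 (K : ℕ) (t u : A) : A := ∑ i ∈ Finset.range K, (NN u) ^ i * (MM u * t) ^ (K - 1 - i)

lemma d1_G1 (K : ℕ) (t u : A) : d1 t u * G1 K t u = t ^ K - (xi u) ^ K := by
  rw [mul_comm]; exact geom_sum₂_mul t (xi u) K

lemma d2_G2 (K : ℕ) (t u : A) : d2 t u * G2 K t u = (NN u) ^ K - (MM u * t) ^ K := by
  rw [mul_comm]; exact geom_sum₂_mul (NN u) (MM u * t) K

end Objects

section Cancel
variable {R : Type*} [CommRing R]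

lemma map_hom_NN {A B : Type*} [CommRing A] [CommRing B] (f : A →+* B) (u : A) :
    f (NN u) = NN (f u) := by
  simp only [NN, map_add, map_sub, map_mul, map_pow, map_ofNat]
lemma map_hom_MM {A B : Type*} [CommRing A] [CommRing B] (f : A →+* B) (u : A) :
    f (MM u) = MM (f u) := by
  simp only [MM, map_add, map_mul, map_pow, map_ofNat, map_one]
lemma map_hom_xi {A B : Type*} [CommRing A] [CommRing B] (f : A →+* B) (u : A) :
    f (xi u) = xi (f u) := by
  simp only [xi, map_sub, map_mul, map_ofNat]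

lemma d1_reg : d1 (tt : R[X][X]) uu ∈ nonZeroDivisors R[X][X] := by
  have h : d1 (tt : R[X][X]) uu = X - C (xi X) := by
    rw [map_hom_xi C]; rfl
  rw [h]
  exact (monic_X_sub_C _).mem_nonZeroDivisors

lemma MM_reg (h2 : IsUnit (2 : R)) : MM (X : R[X]) ∈ nonZeroDivisors R[X] := by
  have h1 : (X : R[X]) ∈ nonZeroDivisors R[X] := monic_X.mem_nonZeroDivisors
  have h3 : (2 * X + 1 : R[X]) ∈ nonZeroDivisors R[X] := by
    apply mem_nonZeroDivisors_of_leadingCoeff
    by_cases hR : Nontrivial R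
    · have h20 : (2 : R) ≠ 0 := h2.ne_zero
      have h4 : (2 * X + 1 : R[X]) = C 2 * X + C 1 := by
        rw [map_ofNat C 2, map_one]
      rw [h4, leadingCoeff_linear h20]
      exact h2.mem_nonZeroDivisors
    · have : Subsingleton R := not_nontrivial_iff_subsingleton.1 hR
      exact (isUnit_of_subsingleton _).mem_nonZeroDivisors
  exact mul_mem h1 (pow_mem h3 2)

lemma d2_reg (h2 : IsUnit (2 : R)) : d2 (tt : R[X][X]) uu ∈ nonZeroDivisors R[X][X] := by
  have h : d2 (tt : R[X][X]) (uu : R[X][X]) =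
      (C (-MM (X : R[X])) : R[X][X]) * (X : R[X][X]) + (C (NN (X : R[X])) : R[X][X]) := by
    have e1 : (C (NN (X : R[X])) : R[X][X]) = NN (C X : R[X][X]) :=
      map_hom_NN (C : R[X] →+* R[X][X]) X
    have e2 : (C (MM (X : R[X])) : R[X][X]) = MM (C X : R[X][X]) :=
      map_hom_MM (C : R[X] →+* R[X][X]) X
    rw [e1, map_neg, e2]
    unfold d2
    ring
  rw [h]
  apply mem_nonZeroDivisors_of_leadingCoeff
  by_cases hR : Nontrivial R
  · have h3 : -MM (X : R[X]) ∈ nonZeroDivisors R[X] := by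
      have h4 := mul_mem (MM_reg h2)
        (isUnit_one.neg.mem_nonZeroDivisors : (-1 : R[X]) ∈ nonZeroDivisors R[X])
      have h5 : -MM (X : R[X]) = MM X * -1 := by ring
      rw [h5]; exact h4
    have h6 : -MM (X : R[X]) ≠ 0 := nonZeroDivisors.ne_zero h3
    rw [leadingCoeff_linear h6]
    exact h3
  · have : Subsingleton R := not_nontrivial_iff_subsingleton.1 hR
    exact (isUnit_of_subsingleton _).mem_nonZeroDivisors

/-- The certificate in `R[u][t]` after cancellation of `d1 d2`. -/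
theorem ode_S {K M : ℕ} (h2 : IsUnit (2 : R)) (hK : (K : R) = 0) (hM : (2 * M : R) = -1)
    (hM1 : 1 ≤ M) :
    2 * uu * (1 - uu) * DU R (Thn tt uu * (G1 K tt uu * G2 K tt uu) * PP tt uu ^ M)
      + (1 - 2 * uu) * (Thn tt uu * (G1 K tt uu * G2 K tt uu) * PP tt uu ^ M)
    = 10 * (((tt : R[X][X]) ^ K - xi uu ^ K) * (NN uu ^ K - (MM uu * tt) ^ K))
        * (357 * uu * DU R (PP tt uu ^ M) + 103 * PP tt uu ^ M)
      + 2 * DT R (Bn tt uu * (G1 K tt uu * G2 K tt uu) * PP tt uu ^ M) := by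
  have hK' : (K : R[X][X]) = 0 := by
    have := congrArg (fun x : R => (C (C x) : R[X][X])) hK
    simpa using this
  have hM' : (2 * M : R[X][X]) = -1 := by
    have := congrArg (fun x : R => (C (C x) : R[X][X])) hM
    simpa only [map_mul, map_ofNat, map_natCast, map_neg, map_one] using this
  have key := cert (DT R) (DU R) tt uu (PP tt uu ^ M) (PP tt uu ^ (M - 1))
    (G1 K tt uu * G2 K tt uu) DT_t DT_u DU_t DU_u
    (by rw [← pow_succ']; congr 1; omega)
    (D_halfpow _ hM') (D_halfpow _ hM')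
    (D_prod _ (D_geom _ hK' (d1_G1 K _ _)) (D_geom _ hK' (d2_G2 K _ _)))
    (D_prod _ (D_geom _ hK' (d1_G1 K _ _)) (D_geom _ hK' (d2_G2 K _ _)))
  have hreg : d1 (tt : R[X][X]) uu * d2 tt uu ∈ nonZeroDivisors R[X][X] :=
    mul_mem d1_reg (d2_reg h2)
  have key2 := (mul_cancel_left_mem_nonZeroDivisors hreg).1 key
  have e1 : d1 (tt : R[X][X]) uu * d2 tt uu * (G1 K tt uu * G2 K tt uu) =
      ((tt : R[X][X]) ^ K - xi uu ^ K) * (NN uu ^ K - (MM uu * tt) ^ K) := by
    rw [← d1_G1, ← d2_G2]; ring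
  rw [e1] at key2
  exact key2

end Cancel

end

end Pool.Agent.SC105
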