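import Pool.Agent.SC105.PartB2

/-!
# The first section
-/

namespace Pool.Agent.SC105

open Polynomial

noncomputable section

variable {p : ℕ} [hp : Fact p.Prime]

def A1 (p m : ℕ) : (ZMod p)[X] :=
  ∑ j ∈ Finset.range p, al X * xi X ^ j * (PP tt uu ^ m : (ZMod p)[X][X]).coeff (p + j)

lemma PP_xi {A : Type*} [CommRing A] (u : A) :
    PP (xi u) u = 135 * (u ^ 3 * (u - 1) * (14 * u - 5) ^ 2) := by
  unfold PP xi
  ring

lemma eval_PPm (m : ℕ) : (PP tt uu ^ m : (ZMod p)[X][X]).eval (xi X) =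
    (135 * (X ^ 3 * (X - 1) * (14 * X - 5) ^ 2)) ^ m := by
  rw [eval_pow, ← PP_xi]
  congr 1
  rw [PP_cub]
  simp only [eval_add, eval_mul, eval_pow, eval_C, eval_X]
  unfold PP
  ring

omit hp in
lemma PPm_natDegree (m : ℕ) : (PP tt uu ^ m : (ZMod p)[X][X]).natDegree ≤ m * 3 :=
  le_trans natDegree_pow_le (Nat.mul_le_mul_left m (PP_natDegree _))

lemma A1_eq {m : ℕ} (hm : p = 2 * m + 1) : xi X ^ p * A1 p m =
    al X * ((135 * (X ^ 3 * (X - 1) * (14 * X - 5) ^ 2)) ^ m -
      ∑ k ∈ Finset.range p, (PP tt uu ^ m : (ZMod p)[X][X]).coeff k * xi X ^ k) := by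
  have h := eval_eq_sum_range' (lt_of_le_of_lt (PPm_natDegree (p := p) m)
    (by omega : m * 3 < p + p)) (xi X)
  rw [eval_PPm, Finset.sum_range_add] at h
  rw [h, add_sub_cancel_left, A1, Finset.mul_sum, Finset.mul_sum]
  apply Finset.sum_congr rfl
  intro j _
  rw [pow_add]
  ring

lemma swapPPm (m : ℕ) : Bivariate.swap (R := ZMod p) (PP tt uu ^ m) =
    (PP (C X : (ZMod p)[X][X]) X : (ZMod p)[X][X]) ^ m := by
  rw [map_pow, swap_PP]

lemma PPm_coeff_natDegree (m k : ℕ) :
    ((PP tt uu ^ m : (ZMod p)[X][X]).coeff k).natDegree ≤ m * 2 := by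
  rw [natDegree_le_iff_coeff_eq_zero]
  intro N hN
  rw [← coeff_swap, swapPPm, coeff_eq_zero_of_natDegree_lt
    (lt_of_le_of_lt (PP'_pow_natDegree _ m) hN), coeff_zero]

lemma PPm_coeff_top {m : ℕ} (hm : p = 2 * m + 1) (h5 : 5 < p) :
    ((PP tt uu ^ m : (ZMod p)[X][X]).coeff (2 * m)).coeff (m * 2) = 1 := by
  rw [← coeff_swap, swapPPm, coeff_pow_of_natDegree_le PP'_natDegree, PP'_coeff_two, mul_pow,
    ← pow_mul]
  have h27 : (27 : ZMod p) ≠ 0 := by
    have := natCast_ne h5 (a := 27) (by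
      intro q hq h
      have h2 : (27 : ℕ) = 3 ^ 3 := by norm_num
      rw [h2] at h
      have := Nat.le_of_dvd (by norm_num) (hq.dvd_of_dvd_pow h); omega)
    exact_mod_cast this
  have e1 : (729 : (ZMod p)[X]) ^ m = 1 := by
    have h1 : (729 : (ZMod p)[X]) = C (27 ^ 2) := by
      rw [← map_ofNat C 729]; norm_num
    rw [h1, ← map_pow, pow_half 27 h27 hm, map_one]
  have e2 : (25 : (ZMod p)[X]) = C 25 := (map_ofNat C 25).symm
  rw [e1, one_mul, e2, coeff_X_add_C_pow, Nat.sub_self, pow_zero, one_mul, Nat.choose_self,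
    Nat.cast_one]

lemma xi_sq (R : Type*) [CommRing R] : (xi (X : R[X])) = C 0 * X ^ 3 + C 6 * X ^ 2 +
    C (-15) * X + C 0 := by
  unfold xi
  simp only [map_neg, map_ofNat, map_zero]
  ring

lemma al_sq (R : Type*) [CommRing R] : (al (X : R[X])) = C 0 * X ^ 3 + C 2940 * X ^ 2 +
    C (-1050) * X + C 0 := by
  unfold al
  simp only [map_neg, map_ofNat, map_zero]
  ring

lemma sq_natDegree {R : Type*} [CommRing R] (b c d : R) :
    (C 0 * X ^ 3 + C b * X ^ 2 + C c * X + C d : R[X]).natDegree ≤ 2 := by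
  rw [map_zero, zero_mul, zero_add]
  compute_degree

lemma xi_natDegree (R : Type*) [CommRing R] : (xi (X : R[X])).natDegree ≤ 2 := by
  rw [xi_sq]; exact sq_natDegree _ _ _

lemma al_natDegree (R : Type*) [CommRing R] : (al (X : R[X])).natDegree ≤ 2 := by
  rw [al_sq]; exact sq_natDegree _ _ _

lemma sx_natDegree (R : Type*) [CommRing R] :
    (135 * (X ^ 3 * (X - 1) * (14 * X - 5) ^ 2) : R[X]).natDegree ≤ 6 := by
  compute_degree

lemma sx_coeff (R : Type*) [CommRing R] :
    (135 * (X ^ 3 * (X - 1) * (14 * X - 5) ^ 2) : R[X]).coeff 6 = 26460 := by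
  have e : (135 * (X ^ 3 * (X - 1) * (14 * X - 5) ^ 2) : R[X]) =
      (C 26460 * X ^ 3 + C (-45360) * X ^ 2 + C 22275 * X + C (-3375)) * X ^ 3 := by
    simp only [map_neg, map_ofNat]
    ring
  rw [e, show (6 : ℕ) = 3 + 3 by rfl, coeff_mul_X_pow, cub3]

lemma A1_natDegree {m : ℕ} (hm : p = 2 * m + 1) (h5 : 5 < p) : (A1 p m).natDegree ≤ p - 1 := by
  by_cases hA : A1 p m = 0
  · rw [hA, natDegree_zero]; omega
  have hx6 : (xi (X : (ZMod p)[X])).coeff 2 = 6 := by rw [xi_sq, cub2]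
  have hx : 2 ≤ (xi (X : (ZMod p)[X])).natDegree := by
    apply le_natDegree_of_ne_zero
    rw [hx6]
    exact ne_6 h5
  have hxne : xi (X : (ZMod p)[X]) ≠ 0 := by
    intro h
    rw [h, coeff_zero] at hx6
    exact ne_6 h5 hx6.symm
  have h1 := natDegree_mul (pow_ne_zero p hxne) hA
  rw [natDegree_pow, A1_eq hm] at h1
  have h2 : (al X * ((135 * (X ^ 3 * (X - 1) * (14 * X - 5) ^ 2)) ^ m -
      ∑ k ∈ Finset.range p, (PP tt uu ^ m : (ZMod p)[X][X]).coeff k * xi X ^ k)).natDegree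
      ≤ 2 + (3 * p - 3) := by
    refine le_trans natDegree_mul_le (Nat.add_le_add (al_natDegree _) ?_)
    refine le_trans (natDegree_sub_le _ _) (max_le ?_ ?_)
    · refine le_trans natDegree_pow_le (le_trans (Nat.mul_le_mul_left m (sx_natDegree _)) ?_)
      omega
    · apply natDegree_sum_le_of_forall_le
      intro k hk
      rw [Finset.mem_range] at hk
      refine le_trans natDegree_mul_le (le_trans (Nat.add_le_add (PPm_coeff_natDegree m k)
        (le_trans natDegree_pow_le (Nat.mul_le_mul_left k (xi_natDegree _)))) ?_)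
      omega
  rw [h1] at h2
  have h3 : p * 2 ≤ p * (xi (X : (ZMod p)[X])).natDegree := Nat.mul_le_mul_left p hx
  omega

/-- The value of the coefficient in the first section. -/
theorem A1_value {m : ℕ} (hm : p = 2 * m + 1) (h5 : 5 < p) :
    (A1 p m).coeff (p - 1) = 490 * (26460 ^ m - 1) := by
  have h := congrArg (fun f => f.coeff (p * 2 + (p - 1))) (A1_eq hm)
  beta_reduce at h
  have hx6 : (xi (X : (ZMod p)[X])).coeff 2 = 6 := by rw [xi_sq, cub2]
  rw [coeff_mul_add_eq_of_natDegree_le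
    (le_trans natDegree_pow_le (Nat.mul_le_mul_left p (xi_natDegree _))) (A1_natDegree hm h5),
    coeff_pow_of_natDegree_le (xi_natDegree _), hx6, ZMod.pow_card] at h
  have hs1 : ((135 * (X ^ 3 * (X - 1) * (14 * X - 5) ^ 2) : (ZMod p)[X]) ^ m).natDegree ≤
      m * 6 := le_trans natDegree_pow_le (Nat.mul_le_mul_left m (sx_natDegree _))
  have hs2 : ∀ k ∈ Finset.range p, ((PP tt uu ^ m : (ZMod p)[X][X]).coeff k *
      xi X ^ k).natDegree ≤ m * 2 + k * 2 := by
    intro k _
    exact le_trans natDegree_mul_le (Nat.add_le_add (PPm_coeff_natDegree m k)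
      (le_trans natDegree_pow_le (Nat.mul_le_mul_left k (xi_natDegree _))))
  have hsub : ((135 * (X ^ 3 * (X - 1) * (14 * X - 5) ^ 2)) ^ m -
      ∑ k ∈ Finset.range p, (PP tt uu ^ m : (ZMod p)[X][X]).coeff k * xi X ^ k).natDegree
      ≤ m * 6 := by
    refine le_trans (natDegree_sub_le _ _) (max_le hs1 ?_)
    apply natDegree_sum_le_of_forall_le
    intro k hk
    have hk' := Finset.mem_range.1 hk
    refine le_trans (hs2 k hk) ?_
    omega
  have e : p * 2 + (p - 1) = 2 + m * 6 := by omega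
  rw [e, coeff_mul_add_eq_of_natDegree_le (al_natDegree _) hsub, al_sq, cub2, coeff_sub,
    coeff_pow_of_natDegree_le (sx_natDegree _), sx_coeff, finsetSum_coeff] at h
  have hterm : ∀ k ∈ Finset.range p, ((PP tt uu ^ m : (ZMod p)[X][X]).coeff k *
      xi X ^ k).coeff (m * 6) = if k = 2 * m then 1 else 0 := by
    intro k hk
    have hk' := Finset.mem_range.1 hk
    by_cases hkm : k = 2 * m
    · subst hkm
      have e6 : m * 6 = m * 2 + (2 * m) * 2 := by omega
      rw [e6, coeff_mul_add_eq_of_natDegree_le (PPm_coeff_natDegree m _)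
        (le_trans natDegree_pow_le (Nat.mul_le_mul_left (2 * m) (xi_natDegree _))),
        PPm_coeff_top hm h5, coeff_pow_of_natDegree_le (xi_natDegree _), hx6, if_pos rfl, one_mul,
        pow_mul, pow_half 6 (ne_6 h5) hm]
    · rw [if_neg hkm]
      apply coeff_eq_zero_of_natDegree_lt
      refine lt_of_le_of_lt (hs2 k hk) ?_
      omega
  rw [Finset.sum_congr rfl hterm, Finset.sum_ite_eq', if_pos (Finset.mem_range.2 (by omega))] at h
  apply mul_left_cancel₀ (ne_6 h5)
  linear_combination h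

end

end Pool.Agent.SC105
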