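import Pool.Agent.SC105.Cart

/-!
# The second section
-/

namespace Pool.Agent.SC105

open Polynomial

noncomputable section

variable {p : ℕ} [hp : Fact p.Prime]

/-- `(q0 - q1 t) PP^m` -/
def QQ (p m : ℕ) : (ZMod p)[X][X] := (q0 uu - q1 uu * tt) * PP tt uu ^ m

def YY (p m : ℕ) : (ZMod p)[X] :=
  ∑ k ∈ Finset.range p, (QQ p m).coeff k * NN X ^ k * MM X ^ (p - 1 - k)

def YI (p m : ℕ) : (ZMod p)[X] :=
  - ∑ j ∈ Finset.range p, (QQ p m).coeff (p + j) * NN X ^ j * MM X ^ (p - 1 - j)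

def ZZ (A : Type*) [CommRing A] (u : A) : A := q0 u * MM u - q1 u * NN u

lemma MPi {A : Type*} [CommRing A] (u : A) :
    MM u * (NN u ^ 3 + 81 * MM u * ((5 + 3 * u) * NN u + 75 * u * MM u) ^ 2) =
      u * (1 - u) * (ZZ A u) ^ 2 := by
  unfold ZZ q0 q1 MM NN
  ring

lemma YY_sum (m : ℕ) : MM X ^ p * YY p m - NN X ^ p * YI p m =
    ∑ k ∈ Finset.range (p + p), (QQ p m).coeff k * NN X ^ k * MM X ^ (p + p - 1 - k) := by
  have hp2 := hp.out.two_le
  rw [Finset.sum_range_add, YY, YI, mul_neg, sub_neg_eq_add, Finset.mul_sum, Finset.mul_sum]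
  congr 1
  · apply Finset.sum_congr rfl
    intro k hk
    rw [Finset.mem_range] at hk
    have e : p + p - 1 - k = p + (p - 1 - k) := by omega
    rw [e, pow_add]; ring
  · apply Finset.sum_congr rfl
    intro j hj
    rw [Finset.mem_range] at hj
    have e : p + p - 1 - (p + j) = p - 1 - j := by omega
    rw [e, pow_add]; ring

lemma PP_natDegree (R : Type*) [CommRing R] : (PP tt uu : R[X][X]).natDegree ≤ 3 := by
  rw [PP_cub]
  have h : ∀ a b c d : R[X], (C a * X ^ 3 + C b * X ^ 2 + C c * X + C d : R[X][X]).natDegree ≤ 3 := by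
    intro a b c d
    compute_degree
  exact h _ _ _ _

lemma lin_eq (R : Type*) [CommRing R] : (q0 uu - q1 uu * tt : R[X][X]) = C (-q1 X) * X + C (q0 X) := by
  unfold q0 q1
  simp only [map_neg, map_add, map_sub, map_mul, map_pow, map_ofNat, map_one]
  ring

lemma QQ_natDegree (m : ℕ) : (QQ p m).natDegree ≤ 1 + m * 3 := by
  unfold QQ
  refine le_trans natDegree_mul_le ?_
  have h1 : (q0 uu - q1 uu * tt : (ZMod p)[X][X]).natDegree ≤ 1 := by
    rw [lin_eq]
    have h : ∀ a b : (ZMod p)[X], (C a * X + C b : (ZMod p)[X][X]).natDegree ≤ 1 := by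
      intro a b
      compute_degree
    exact h _ _
  have h2 : (PP tt uu ^ m : (ZMod p)[X][X]).natDegree ≤ m * 3 :=
    le_trans natDegree_pow_le (Nat.mul_le_mul_left m (PP_natDegree _))
  omega

lemma MM_ne (h5 : 5 < p) : MM (X : (ZMod p)[X]) ≠ 0 := by
  have h2 : IsUnit (2 : ZMod p) := by
    apply IsUnit.mk0
    intro h
    have : ((2 : ℕ) : ZMod p) = 0 := by exact_mod_cast h
    rw [ZMod.natCast_eq_zero_iff] at this
    exact absurd (Nat.le_of_dvd (by norm_num) this) (by omega)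
  exact nonZeroDivisors.ne_zero (MM_reg h2)

lemma eval_QQ {L : Type*} [Field L] (φ : (ZMod p)[X] →+* L) (τ : L) (m : ℕ) :
    (QQ p m).eval₂ φ τ = (q0 (φ X) - q1 (φ X) * τ) * PP τ (φ X) ^ m := by
  have h1 : (q0 uu - q1 uu * tt : (ZMod p)[X][X]).eval₂ φ τ = q0 (φ X) - q1 (φ X) * τ := by
    rw [lin_eq, eval₂_add, eval₂_mul, eval₂_C, eval₂_C, eval₂_X]
    unfold q0 q1
    simp only [map_neg, map_add, map_sub, map_mul, map_pow, map_ofNat, map_one]
    ring
  have h2 : (PP tt uu : (ZMod p)[X][X]).eval₂ φ τ = PP τ (φ X) := by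
    rw [PP_cub]
    simp only [eval₂_add, eval₂_mul, eval₂_C, eval₂_X, eval₂_pow]
    unfold PP
    simp only [map_add, map_mul, map_pow, map_ofNat, map_one]
    ring
  unfold QQ
  rw [eval₂_mul, eval₂_pow, h1, h2]

lemma field_MP {L : Type*} [Field L] {x N M : L} (hM0 : M ≠ 0) (hN : N = NN x) (hM : M = MM x) :
    M ^ 4 * PP (N / M) x = x * (1 - x) * (ZZ L x) ^ 2 := by
  rw [← MPi, ← hN, ← hM]
  unfold PP
  field_simp

lemma field_lin {L : Type*} [Field L] {x N M : L} (hM0 : M ≠ 0) (hN : N = NN x) (hM : M = MM x) :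
    M * (q0 x - q1 x * (N / M)) = ZZ L x := by
  unfold ZZ
  rw [← hN, ← hM]
  field_simp

lemma map_ZZ {A B : Type*} [CommRing A] [CommRing B] (f : A →+* B) (u : A) :
    f (ZZ A u) = ZZ B (f u) := by
  unfold ZZ q0 q1
  rw [map_sub, map_mul, map_mul, map_hom_NN, map_hom_MM]
  simp only [map_neg, map_add, map_sub, map_mul, map_pow, map_ofNat, map_one]

lemma hom_field {L : Type*} [Field L] (φ : (ZMod p)[X] →+* L) {m : ℕ} (hm : p = 2 * m + 1)
    (hM0 : φ (MM X) ≠ 0) :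
    φ (∑ k ∈ Finset.range (p + p), (QQ p m).coeff k * NN X ^ k * MM X ^ (p + p - 1 - k)) =
      φ ((ZZ _ (X : (ZMod p)[X])) ^ p * (X * (1 - X)) ^ m) := by
  have hp2 := hp.out.two_le
  have h1 : φ (∑ k ∈ Finset.range (p + p), (QQ p m).coeff k * NN X ^ k * MM X ^ (p + p - 1 - k))
      = φ (MM X) ^ (p + p - 1) * (QQ p m).eval₂ φ (φ (NN X) / φ (MM X)) := by
    rw [eval₂_eq_sum_range' φ (lt_of_le_of_lt (QQ_natDegree m) (by omega : 1 + m * 3 < p + p)),
      map_sum, Finset.mul_sum]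
    apply Finset.sum_congr rfl
    intro k hk
    rw [Finset.mem_range] at hk
    rw [map_mul, map_mul, map_pow, map_pow, div_pow]
    have e : p + p - 1 = (p + p - 1 - k) + k := by omega
    have e2 : φ (MM X) ^ (p + p - 1) = φ (MM X) ^ (p + p - 1 - k) * φ (MM X) ^ k := by
      rw [← pow_add, ← e]
    rw [e2]
    field_simp
  rw [h1, eval_QQ, map_mul, map_pow, map_pow, map_mul, map_sub, map_one, map_ZZ]
  have h3 := field_MP hM0 (map_hom_NN φ X) (map_hom_MM φ X)
  have h4 := field_lin hM0 (map_hom_NN φ X) (map_hom_MM φ X)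
  generalize φ (NN X) / φ (MM X) = τ at *
  generalize φ (MM X) = M at *
  generalize φ X = x at *
  have e6 : p + p - 1 = 1 + 4 * m := by omega
  calc M ^ (p + p - 1) * ((q0 x - q1 x * τ) * PP τ x ^ m)
      = (M * (q0 x - q1 x * τ)) * (M ^ 4 * PP τ x) ^ m := by
        rw [e6, pow_add, pow_one, mul_pow, pow_mul]; ring
    _ = (ZZ L x) * (x * (1 - x) * (ZZ L x) ^ 2) ^ m := by rw [h3, h4]
    _ = (ZZ L x) ^ (2 * m + 1) * (x * (1 - x)) ^ m := by
        rw [mul_pow _ _ m, ← pow_mul, pow_succ]; ring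
    _ = (ZZ L x) ^ p * (x * (1 - x)) ^ m := by rw [← hm]

lemma hom_sum {m : ℕ} (hm : p = 2 * m + 1) (h5 : 5 < p) :
    ∑ k ∈ Finset.range (p + p), (QQ p m).coeff k * NN X ^ k * MM X ^ (p + p - 1 - k) =
      (ZZ _ (X : (ZMod p)[X])) ^ p * (X * (1 - X)) ^ m := by
  have hinj : Function.Injective (algebraMap (ZMod p)[X] (FractionRing (ZMod p)[X])) :=
    IsFractionRing.injective _ _
  apply hinj
  apply hom_field _ hm
  intro h
  apply MM_ne h5
  exact hinj (by rw [h, map_zero])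

/-- The key relation. -/
lemma key_B {m : ℕ} (hm : p = 2 * m + 1) (h5 : 5 < p) :
    MM X ^ p * YY p m - NN X ^ p * YI p m =
      (ZZ _ (X : (ZMod p)[X])) ^ p * (X * (1 - X)) ^ m := by
  rw [YY_sum, hom_sum hm h5]

lemma cart_B {m : ℕ} (hm : p = 2 * m + 1) (h5 : 5 < p) :
    MM X * (cart (YY p m) - C ((-1) ^ m) * q0 X) = NN X * (cart (YI p m) - C ((-1) ^ m) * q1 X) := by
  have h := congrArg cart (key_B hm h5)
  rw [cart_sub, mul_comm (MM X ^ p), mul_comm (NN X ^ p), mul_comm (ZZ _ X ^ p), cart_mul_pow,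
    cart_mul_pow, cart_mul_pow, cart_half hm] at h
  unfold ZZ at h
  linear_combination h

end

end Pool.Agent.SC105
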