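import Pool.Agent.SC105.PartB

/-!
# The second section: the value of the coefficient
-/

namespace Pool.Agent.SC105

open Polynomial

noncomputable section

variable {p : ℕ} [hp : Fact p.Prime]

lemma natCast_ne (h5 : 5 < p) {a : ℕ} (hs : ∀ q : ℕ, q.Prime → q ∣ a → q ≤ 5) :
    (a : ZMod p) ≠ 0 := by
  intro h
  rw [ZMod.natCast_eq_zero_iff] at h
  have := hs p hp.out h
  omega

lemma prime_le_five_100 (q : ℕ) (hq : q.Prime) (h : q ∣ 100) : q ≤ 5 := by
  have h2 : (100 : ℕ) = 2 ^ 2 * 5 ^ 2 := by norm_num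
  rw [h2] at h
  rcases (Nat.Prime.dvd_mul hq).1 h with h | h
  · have := Nat.le_of_dvd (by norm_num) (hq.dvd_of_dvd_pow h); omega
  · exact Nat.le_of_dvd (by norm_num) (hq.dvd_of_dvd_pow h)

lemma prime_le_five_216 (q : ℕ) (hq : q.Prime) (h : q ∣ 216) : q ≤ 5 := by
  have h2 : (216 : ℕ) = 2 ^ 3 * 3 ^ 3 := by norm_num
  rw [h2] at h
  rcases (Nat.Prime.dvd_mul hq).1 h with h | h
  · have := Nat.le_of_dvd (by norm_num) (hq.dvd_of_dvd_pow h); omega
  · have := Nat.le_of_dvd (by norm_num) (hq.dvd_of_dvd_pow h); omega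

lemma prime_le_five_6 (q : ℕ) (hq : q.Prime) (h : q ∣ 6) : q ≤ 5 := by
  have h2 : (6 : ℕ) = 2 * 3 := by norm_num
  rw [h2] at h
  rcases (Nat.Prime.dvd_mul hq).1 h with h | h
  · have := Nat.le_of_dvd (by norm_num) h; omega
  · have := Nat.le_of_dvd (by norm_num) h; omega

lemma ne_100 (h5 : 5 < p) : (100 : ZMod p) ≠ 0 := by
  have := natCast_ne h5 (a := 100) prime_le_five_100
  exact_mod_cast this

lemma ne_216 (h5 : 5 < p) : (216 : ZMod p) ≠ 0 := by
  have := natCast_ne h5 (a := 216) prime_le_five_216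
  exact_mod_cast this

lemma ne_6 (h5 : 5 < p) : (6 : ZMod p) ≠ 0 := by
  have := natCast_ne h5 (a := 6) prime_le_five_6
  exact_mod_cast this

lemma pow_half (a : ZMod p) (ha : a ≠ 0) {m : ℕ} (hm : p = 2 * m + 1) : (a ^ 2) ^ m = 1 := by
  rw [← pow_mul]
  have h : 2 * m = p - 1 := by omega
  rw [h]
  exact ZMod.pow_card_sub_one_eq_one ha

lemma coprime_MN (h5 : 5 < p) : IsCoprime (NN (X : (ZMod p)[X])) (MM X) := by
  have e1 : (C ((100 : ZMod p)⁻¹) : (ZMod p)[X]) * 100 = 1 := by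
    have : (100 : (ZMod p)[X]) = C 100 := (map_ofNat C 100).symm
    rw [this, ← C_mul, inv_mul_cancel₀ (ne_100 h5), C_1]
  have e2 : (C ((216 : ZMod p)⁻¹) : (ZMod p)[X]) * 216 = 1 := by
    have : (216 : (ZMod p)[X]) = C 216 := (map_ofNat C 216).symm
    rw [this, ← C_mul, inv_mul_cancel₀ (ne_216 h5), C_1]
  have h1 : IsCoprime (NN (X : (ZMod p)[X])) X := by
    refine ⟨C ((100 : ZMod p)⁻¹), -(C ((100 : ZMod p)⁻¹) * (-165 + 84 * X - 100 * X ^ 2)), ?_⟩
    unfold NN
    linear_combination e1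
  have h2 : IsCoprime (NN (X : (ZMod p)[X])) (2 * X + 1) := by
    refine ⟨C ((216 : ZMod p)⁻¹), -(C ((216 : ZMod p)⁻¹) * (-50 * X ^ 2 + 67 * X - 116)), ?_⟩
    unfold NN
    linear_combination e2
  unfold MM
  exact h1.mul_right h2.pow_right

lemma NN_dvd {m : ℕ} (hm : p = 2 * m + 1) (h5 : 5 < p) :
    NN X ∣ cart (YY p m) - C ((-1) ^ m) * q0 X := by
  have h := cart_B hm h5
  have h2 : NN X ∣ MM X * (cart (YY p m) - C ((-1) ^ m) * q0 X) := ⟨_, h⟩
  exact (coprime_MN h5).dvd_of_dvd_mul_left h2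

lemma swap_QQ (m : ℕ) : Bivariate.swap (R := ZMod p) (QQ p m) =
    (q0 (X : (ZMod p)[X][X]) - q1 X * (C X : (ZMod p)[X][X])) *
      PP (C X : (ZMod p)[X][X]) X ^ m := by
  unfold QQ
  have h1 : Bivariate.swap (R := ZMod p) tt = C X := Bivariate.swap_Y
  have h2 : Bivariate.swap (R := ZMod p) uu = X := Bivariate.swap_X
  rw [map_mul, map_pow, swap_PP, map_sub, map_mul, h1]
  unfold q0 q1
  simp only [map_neg, map_add, map_sub, map_mul, map_pow, map_ofNat, map_one, h2]

lemma lin'_cub : (q0 (X : (ZMod p)[X][X]) - q1 X * (C X : (ZMod p)[X][X])) =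
    C (-4900 - 196 * X) * X ^ 3 + C (6492 - 108 * X) * X ^ 2 + C (-12945 + 15 * X) * X
      + C (10300 + 10 * X) := by
  unfold q0 q1
  simp only [map_neg, map_add, map_sub, map_mul, map_ofNat]
  ring

lemma lin'_natDegree :
    (q0 (X : (ZMod p)[X][X]) - q1 X * (C X : (ZMod p)[X][X])).natDegree ≤ 3 := by
  rw [lin'_cub]
  have h : ∀ a b c d : (ZMod p)[X],
      (C a * X ^ 3 + C b * X ^ 2 + C c * X + C d : (ZMod p)[X][X]).natDegree ≤ 3 := by
    intro a b c d
    compute_degree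
  exact h _ _ _ _

lemma PP'_pow_natDegree (R : Type*) [CommRing R] (m : ℕ) :
    ((PP (C X : R[X][X]) X : R[X][X]) ^ m).natDegree ≤ m * 2 :=
  le_trans natDegree_pow_le (Nat.mul_le_mul_left m PP'_natDegree)

lemma swapQQ_natDegree (m : ℕ) :
    (Bivariate.swap (R := ZMod p) (QQ p m)).natDegree ≤ 3 + m * 2 := by
  rw [swap_QQ]
  refine le_trans natDegree_mul_le ?_
  exact Nat.add_le_add lin'_natDegree (PP'_pow_natDegree _ m)

lemma QQ_coeff_natDegree (m k : ℕ) : ((QQ p m).coeff k).natDegree ≤ 3 + m * 2 := by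
  rw [natDegree_le_iff_coeff_eq_zero]
  intro N hN
  rw [← coeff_swap, coeff_eq_zero_of_natDegree_lt (lt_of_le_of_lt (swapQQ_natDegree m) hN),
    coeff_zero]

lemma X_add_pow (a : ZMod p) : ((X : (ZMod p)[X]) + C a) ^ p = X ^ p + C a := by
  rw [add_pow_char, ← map_pow, ZMod.pow_card]

lemma swapQQ_coeff {m : ℕ} (hm : p = 2 * m + 1) (h5 : 5 < p) :
    (Bivariate.swap (R := ZMod p) (QQ p m)).coeff (3 + m * 2) = -196 * (X ^ p + C 25) := by
  rw [swap_QQ, coeff_mul_add_eq_of_natDegree_le lin'_natDegree (PP'_pow_natDegree _ m), lin'_cub, cub3,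
    coeff_pow_of_natDegree_le PP'_natDegree, PP'_coeff_two, mul_pow, ← pow_mul]
  have h27 : (27 : ZMod p) ≠ 0 := by
    have := natCast_ne h5 (a := 27) (by
      intro q hq h
      have h2 : (27 : ℕ) = 3 ^ 3 := by norm_num
      rw [h2] at h
      have := Nat.le_of_dvd (by norm_num) (hq.dvd_of_dvd_pow h); omega)
    exact_mod_cast this
  have e1 : (729 : (ZMod p)[X]) ^ m = 1 := by
    have h1 : (729 : (ZMod p)[X]) = C (27 ^ 2) := by
      rw [← map_ofNat C 729]; norm_num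
    rw [h1, ← map_pow, pow_half 27 h27 hm, map_one]
  rw [e1, one_mul, ← X_add_pow]
  have e2 : p = 2 * m + 1 := hm
  have e3 : ((X : (ZMod p)[X]) + C 25) ^ p = (X + C 25) ^ (2 * m) * (X + C 25) := by
    rw [← pow_succ, ← hm]
  have e4 : (25 : (ZMod p)[X]) = C 25 := (map_ofNat C 25).symm
  rw [e3, ← e4]
  ring

lemma QQ_coeff_top {m : ℕ} (hm : p = 2 * m + 1) (h5 : 5 < p) (k : ℕ) (hk : k < p) :
    ((QQ p m).coeff k).coeff (3 + m * 2) = if k = 0 then -4900 else 0 := by
  rw [← coeff_swap, swapQQ_coeff hm h5]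
  have e1 : (-196 * (X ^ p + C 25) : (ZMod p)[X]) = C (-196) * (X ^ p + C 25) := by
    rw [map_neg, map_ofNat C 196]
  rw [e1, coeff_C_mul, coeff_add, coeff_X_pow, if_neg (by omega), coeff_C]
  by_cases h : k = 0
  · rw [if_pos h, if_pos h]; norm_num
  · rw [if_neg h, if_neg h]; norm_num

lemma NN_cub (R : Type*) [CommRing R] : NN (X : R[X]) =
    C (-100) * X ^ 3 + C 84 * X ^ 2 + C (-165) * X + C 100 := by
  unfold NN
  simp only [map_neg, map_ofNat]
  ring

lemma MM_cub (R : Type*) [CommRing R] : MM (X : R[X]) =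
    C 4 * X ^ 3 + C 4 * X ^ 2 + C 1 * X + C 0 := by
  unfold MM
  simp only [map_ofNat, map_one, map_zero]
  ring

lemma q0_cub (R : Type*) [CommRing R] : q0 (X : R[X]) =
    C (-4900) * X ^ 3 + C 6492 * X ^ 2 + C (-12945) * X + C 10300 := by
  unfold q0
  simp only [map_neg, map_ofNat]
  ring

lemma cub_natDegree {R : Type*} [CommRing R] (a b c d : R) :
    (C a * X ^ 3 + C b * X ^ 2 + C c * X + C d : R[X]).natDegree ≤ 3 := by
  compute_degree

lemma NN_natDegree (R : Type*) [CommRing R] : (NN (X : R[X])).natDegree ≤ 3 := by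
  rw [NN_cub]; exact cub_natDegree _ _ _ _

lemma MM_natDegree (R : Type*) [CommRing R] : (MM (X : R[X])).natDegree ≤ 3 := by
  rw [MM_cub]; exact cub_natDegree _ _ _ _

lemma q0_natDegree (R : Type*) [CommRing R] : (q0 (X : R[X])).natDegree ≤ 3 := by
  rw [q0_cub]; exact cub_natDegree _ _ _ _

lemma term_natDegree (m k : ℕ) :
    ((QQ p m).coeff k * NN X ^ k).natDegree ≤ (3 + m * 2) + k * 3 :=
  le_trans natDegree_mul_le (Nat.add_le_add (QQ_coeff_natDegree m k)
    (le_trans natDegree_pow_le (Nat.mul_le_mul_left k (NN_natDegree _))))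

lemma YY_natDegree {m : ℕ} (hm : p = 2 * m + 1) : (YY p m).natDegree ≤ 4 * p - 1 := by
  unfold YY
  apply natDegree_sum_le_of_forall_le
  intro k hk
  rw [Finset.mem_range] at hk
  refine le_trans natDegree_mul_le (le_trans (Nat.add_le_add (term_natDegree m k)
    (le_trans natDegree_pow_le (Nat.mul_le_mul_left (p - 1 - k) (MM_natDegree _)))) ?_)
  omega

lemma YY_coeff_top {m : ℕ} (hm : p = 2 * m + 1) (h5 : 5 < p) :
    (YY p m).coeff (4 * p - 1) = -4900 := by
  unfold YY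
  rw [finsetSum_coeff]
  have h : ∀ k ∈ Finset.range p, ((QQ p m).coeff k * NN X ^ k * MM X ^ (p - 1 - k)).coeff
      (4 * p - 1) = if k = 0 then -4900 else 0 := by
    intro k hk
    rw [Finset.mem_range] at hk
    have e : 4 * p - 1 = ((3 + m * 2) + k * 3) + (p - 1 - k) * 3 := by omega
    rw [e, coeff_mul_add_eq_of_natDegree_le (term_natDegree m k)
      (le_trans natDegree_pow_le (Nat.mul_le_mul_left (p - 1 - k) (MM_natDegree _))),
      coeff_mul_add_eq_of_natDegree_le (QQ_coeff_natDegree m k)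
      (le_trans natDegree_pow_le (Nat.mul_le_mul_left k (NN_natDegree _))),
      QQ_coeff_top hm h5 k hk, coeff_pow_of_natDegree_le (MM_natDegree _), MM_cub, cub3]
    by_cases h0 : k = 0
    · subst h0
      rw [if_pos rfl, pow_zero, zero_mul, coeff_one_zero]
      have h4 : (2 : ZMod p) ≠ 0 := by
        have := natCast_ne h5 (a := 2) (by
          intro q hq h
          have := Nat.le_of_dvd (by norm_num) h; omega)
        exact_mod_cast this
      have e4 : (4 : ZMod p) ^ (p - 1 - 0) = 1 := by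
        have h5 := pow_half (2 : ZMod p) h4 hm
        have e5 : (4 : ZMod p) = 2 ^ 2 := by norm_num
        have e6 : p - 1 - 0 = m * 2 := by omega
        rw [e5, e6, pow_mul, h5, one_pow]
      rw [e4]; ring
    · rw [if_neg h0]; ring
  rw [Finset.sum_congr rfl h, Finset.sum_ite_eq']
  rw [if_pos (Finset.mem_range.2 hp.out.pos)]

/-- The value of the coefficient in the second section. -/
theorem YY_value {m : ℕ} (hm : p = 2 * m + 1) (h5 : 5 < p) :
    (YY p m).coeff (p - 1) = 5400 * (-1) ^ m + 4900 := by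
  obtain ⟨Q, hQ⟩ := NN_dvd hm h5
  have hW : (cart (YY p m) - C ((-1) ^ m) * q0 X).natDegree ≤ 3 := by
    rw [natDegree_le_iff_coeff_eq_zero]
    intro N hN
    rw [coeff_sub, coeff_cart, coeff_C_mul,
      coeff_eq_zero_of_natDegree_lt (lt_of_le_of_lt (q0_natDegree _) hN),
      coeff_eq_zero_of_natDegree_lt (lt_of_le_of_lt (YY_natDegree hm) _)]
    · ring
    · have : p * 4 ≤ p * N := Nat.mul_le_mul_left p hN
      omega
  have hNN3 : (NN (X : (ZMod p)[X])).coeff 3 = -100 := by rw [NN_cub, cub3]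
  have hNN0 : (NN (X : (ZMod p)[X])).coeff 0 = 100 := by rw [NN_cub, cub0]
  have hNNne : NN (X : (ZMod p)[X]) ≠ 0 := by
    intro h
    rw [h, coeff_zero] at hNN0
    exact ne_100 h5 hNN0.symm
  have hQ0 : Q.natDegree = 0 := by
    by_cases hQz : Q = 0
    · rw [hQz, natDegree_zero]
    · have h1 := natDegree_mul hNNne hQz
      rw [← hQ] at h1
      have h2 : 3 ≤ (NN (X : (ZMod p)[X])).natDegree := by
        apply le_natDegree_of_ne_zero
        rw [hNN3]
        exact neg_ne_zero.2 (ne_100 h5)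
      omega
  obtain ⟨l, rfl⟩ := natDegree_eq_zero.1 hQ0
  have c3 := congrArg (fun f => f.coeff 3) hQ
  have c0 := congrArg (fun f => f.coeff 0) hQ
  beta_reduce at c3 c0
  rw [coeff_sub, coeff_cart, coeff_C_mul, coeff_mul_C, hNN3, q0_cub, cub3] at c3
  rw [coeff_sub, coeff_cart, coeff_C_mul, coeff_mul_C, hNN0, q0_cub, cub0] at c0
  have e3 : p * 3 + (p - 1) = 4 * p - 1 := by omega
  have e0 : p * 0 + (p - 1) = p - 1 := by omega
  rw [e3, YY_coeff_top hm h5] at c3
  rw [e0] at c0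
  linear_combination c0 + c3

end

end Pool.Agent.SC105
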