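import Pool.Agent.SC105.Ode

/-!
# The recurrence for the coefficients
-/

namespace Pool.Agent.SC105

open Polynomial

noncomputable section

section Small
variable {R : Type*} [CommRing R]

lemma coeff_of_X_pow_dvd {K n : ℕ} (h : n < K) {f : R[X]} (hf : X ^ K ∣ f) : f.coeff n = 0 :=
  X_pow_dvd_iff.1 hf n h

lemma coeff_mul_const {p : ℕ} {f : R[X]} (hf : ∀ i, 0 < i → i < p → f.coeff i = 0) (b : R[X])
    {n : ℕ} (hn : n < p) : (f * b).coeff n = f.coeff 0 * b.coeff n := by
  rw [coeff_mul, Finset.sum_eq_single (0, n)]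
  · intro x hx hx0
    have h1 := Finset.HasAntidiagonal.mem_antidiagonal.1 hx
    have h2 : x.1 ≠ 0 := by
      intro h
      apply hx0
      exact Prod.ext h (by dsimp; omega)
    rw [hf x.1 (by omega) (by omega), zero_mul]
  · intro h
    exact absurd (Finset.HasAntidiagonal.mem_antidiagonal.2 (by simp)) h

lemma coeff_pow_K {p K : ℕ} (hK : (K : R) = 0) (hu : ∀ i : ℕ, 0 < i → i < p → IsUnit (i : R))
    (f : R[X]) {i : ℕ} (hi : 0 < i) (hp : i < p) : (f ^ K).coeff i = 0 := by
  have h1 : derivative (f ^ K) = 0 := by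
    rw [derivative_pow, hK]; simp
  have h2 : (derivative (f ^ K)).coeff (i - 1) = 0 := by rw [h1]; simp
  rw [coeff_derivative] at h2
  have h3 : i - 1 + 1 = i := by omega
  have h4 : ((i - 1 : ℕ) : R) + 1 = (i : R) := by
    have := congrArg (Nat.cast : ℕ → R) h3
    simpa using this
  rw [h3, h4] at h2
  exact ((hu i hi hp).mul_left_eq_zero).1 h2

lemma NN_coeff_zero (K : ℕ) : ((NN (X : R[X])) ^ K).coeff 0 = 100 ^ K := by
  rw [coeff_zero_eq_eval_zero, eval_pow]
  congr 1
  simp [NN]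

lemma xi_pow_dvd (K : ℕ) : (X : R[X]) ^ K ∣ (xi (X : R[X])) ^ K := by
  apply pow_dvd_pow_of_dvd
  exact ⟨3 * (2 * X - 5), by unfold xi; ring⟩

end Small

section Main
variable {R : Type*} [CommRing R]

/-- the `t`-coefficient of the third kind form -/
def Psi (R : Type*) [CommRing R] (K M : ℕ) : R[X] :=
  ((Thn tt uu * (G1 K tt uu * G2 K tt uu) * PP tt uu ^ M : R[X][X])).coeff (2 * K - 1)

/-- the `t`-coefficient of `PP ^ M` -/
def Et (R : Type*) [CommRing R] (K M : ℕ) : R[X] := ((PP tt uu ^ M : R[X][X])).coeff (K - 1)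

lemma coeff_TT {K : ℕ} (hK1 : 1 ≤ K) (H : R[X][X]) :
    ((((tt : R[X][X]) ^ K - xi uu ^ K) * (NN uu ^ K - (MM uu * tt) ^ K)) * H).coeff (2 * K - 1)
    = NN X ^ K * H.coeff (K - 1) - xi X ^ K * (NN X ^ K * H.coeff (2 * K - 1))
      + xi X ^ K * (MM X ^ K * H.coeff (K - 1)) := by
  have e1 : (xi uu : R[X][X]) = C (xi X) := (map_hom_xi (C : R[X] →+* R[X][X]) X).symm
  have e2 : (NN uu : R[X][X]) = C (NN X) := (map_hom_NN (C : R[X] →+* R[X][X]) X).symm
  have e3 : (MM uu : R[X][X]) = C (MM X) := (map_hom_MM (C : R[X] →+* R[X][X]) X).symm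
  rw [e1, e2, e3]
  have e4 : (((tt : R[X][X]) ^ K - C (xi X) ^ K) * (C (NN X) ^ K - (C (MM X) * tt) ^ K)) * H =
      X ^ K * (C (NN X ^ K) * H) - X ^ (2 * K) * (C (MM X ^ K) * H)
        - C (xi X ^ K) * (C (NN X ^ K) * H) + X ^ K * (C (xi X ^ K) * (C (MM X ^ K) * H)) := by
    rw [map_pow, map_pow, map_pow, mul_pow, mul_comm 2 K, pow_mul]
    ring
  rw [e4]
  simp only [coeff_add, coeff_sub, coeff_X_pow_mul', coeff_C_mul]
  rw [if_pos (by omega), if_neg (by omega), if_pos (by omega)]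
  have e5 : 2 * K - 1 - K = K - 1 := by omega
  rw [e5]
  ring

theorem rec_Psi {p K M : ℕ} (h2 : IsUnit (2 : R)) (hK : (K : R) = 0) (hM : (2 * M : R) = -1)
    (hM1 : 1 ≤ M) (hp : p ≤ K) (hp1 : 1 ≤ p) (hu : ∀ i : ℕ, 0 < i → i < p → IsUnit (i : R))
    {n : ℕ} (hn : n < p) :
    (2 * n + 1) * (Psi R K M).coeff n - 2 * n * (Psi R K M).coeff (n - 1) =
      10 * 100 ^ K * (357 * n + 103) * (Et R K M).coeff n := by
  have h := ode_S h2 hK hM hM1
  have c1 : (2 * uu * (1 - uu) : R[X][X]) = C (2 * X * (1 - X)) := by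
    simp only [map_mul, map_sub, map_ofNat, map_one]
  have c2 : (1 - 2 * uu : R[X][X]) = C (1 - 2 * X) := by
    simp only [map_mul, map_sub, map_ofNat, map_one]
  have c3 : (357 * uu : R[X][X]) = C (357 * X) := by
    simp only [map_mul, map_ofNat]
  have c4 : (103 : R[X][X]) = C 103 := by simp only [map_ofNat]
  have c5 : (10 : R[X][X]) = C 10 := by simp only [map_ofNat]
  have c6 : (2 : R[X][X]) = C 2 := by simp only [map_ofNat]
  have hH : ∀ j : ℕ, ((10 : R[X][X]) * (357 * uu * DU R (PP tt uu ^ M)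
      + 103 * PP tt uu ^ M)).coeff j = 10 * (357 * X * derivative ((PP tt uu ^ M : R[X][X]).coeff j)
        + 103 * (PP tt uu ^ M : R[X][X]).coeff j) := by
    intro j
    rw [c3, c4, c5, coeff_C_mul, coeff_add, coeff_C_mul, coeff_C_mul, DU_coeff]
  have hK2 : (((2 * K - 1 : ℕ) : R[X]) + 1) = 0 := by
    have h5 : (2 * K - 1) + 1 = 2 * K := by omega
    have h6 := congrArg (Nat.cast : ℕ → R[X]) h5
    have h7 : ((K : ℕ) : R[X]) = 0 := by
      have := congrArg (C : R → R[X]) hK
      simpa using this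
    rw [Nat.cast_add, Nat.cast_one, Nat.cast_mul, h7, mul_zero] at h6
    exact h6
  have hB : 2 * X * (1 - X) * derivative (Psi R K M) + (1 - 2 * X) * Psi R K M =
      NN X ^ K * (10 * (357 * X * derivative (Et R K M) + 103 * Et R K M))
      - xi X ^ K * (NN X ^ K * ((10 : R[X][X]) * (357 * uu * DU R (PP tt uu ^ M)
      + 103 * PP tt uu ^ M)).coeff (2 * K - 1))
      + xi X ^ K * (MM X ^ K * (10 * (357 * X * derivative (Et R K M) + 103 * Et R K M))) := by
    have h3 := congrArg (fun F : R[X][X] => F.coeff (2 * K - 1)) h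
    beta_reduce at h3
    have r1 : (10 * (((tt : R[X][X]) ^ K - xi uu ^ K) * (NN uu ^ K - (MM uu * tt) ^ K))
        * (357 * uu * DU R (PP tt uu ^ M) + 103 * PP tt uu ^ M)) =
        (((tt : R[X][X]) ^ K - xi uu ^ K) * (NN uu ^ K - (MM uu * tt) ^ K))
        * (10 * (357 * uu * DU R (PP tt uu ^ M) + 103 * PP tt uu ^ M)) := by ring
    rw [r1, coeff_add, coeff_add, coeff_TT (by omega)] at h3
    rw [c1, c2, coeff_C_mul, coeff_C_mul, DU_coeff] at h3
    rw [c6, coeff_C_mul, DT_coeff, hK2, mul_zero, mul_zero, add_zero] at h3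
    rw [hH (K - 1)] at h3
    exact h3
  have hX : ∀ (f : R[X]) (m : ℕ), (X * derivative f).coeff m = (m : R) * f.coeff m := by
    intro f m
    cases m with
    | zero => simp
    | succ m => rw [coeff_X_mul, coeff_derivative]; push_cast; ring
  have h8 := congrArg (fun F : R[X] => F.coeff n) hB
  beta_reduce at h8
  have hL : (2 * X * (1 - X) * derivative (Psi R K M) + (1 - 2 * X) * Psi R K M).coeff n =
      (2 * n + 1) * (Psi R K M).coeff n - 2 * n * (Psi R K M).coeff (n - 1) := by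
    have e1 : (2 * X * (1 - X) * derivative (Psi R K M) + (1 - 2 * X) * Psi R K M : R[X]) =
        C (2 : R) * (X * derivative (Psi R K M)) - C (2 : R) * (X * (X * derivative (Psi R K M)))
          + Psi R K M - C (2 : R) * (X * Psi R K M) := by
      rw [map_ofNat C 2]; ring
    rw [e1, coeff_sub, coeff_add, coeff_sub, coeff_C_mul, coeff_C_mul, coeff_C_mul, hX]
    cases n with
    | zero => simp
    | succ m =>
      rw [coeff_X_mul, coeff_X_mul, hX]
      simp only [Nat.add_sub_cancel]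
      push_cast
      ring
  have hR : (NN (X : R[X]) ^ K * (10 * (357 * X * derivative (Et R K M) + 103 * Et R K M))
      - xi (X : R[X]) ^ K * (NN (X : R[X]) ^ K * ((10 : R[X][X]) * (357 * uu * DU R (PP tt uu ^ M)
      + 103 * PP tt uu ^ M)).coeff (2 * K - 1))
      + xi (X : R[X]) ^ K * (MM (X : R[X]) ^ K * (10 * (357 * X * derivative (Et R K M)
        + 103 * Et R K M))) : R[X]).coeff n =
      10 * 100 ^ K * (357 * n + 103) * (Et R K M).coeff n := by
    rw [coeff_add, coeff_sub,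
      coeff_of_X_pow_dvd (lt_of_lt_of_le hn hp) (Dvd.dvd.mul_right (xi_pow_dvd K) _),
      coeff_of_X_pow_dvd (lt_of_lt_of_le hn hp) (Dvd.dvd.mul_right (xi_pow_dvd K) _),
      coeff_mul_const (fun i hi hip => coeff_pow_K hK hu _ hi hip) _ hn, NN_coeff_zero]
    have e2 : (10 * (357 * X * derivative (Et R K M) + 103 * Et R K M)) =
        C (3570 : R) * (X * derivative (Et R K M)) + C (1030 : R) * Et R K M := by
      rw [map_ofNat C 3570, map_ofNat C 1030]; ring
    rw [e2, coeff_add, coeff_C_mul, coeff_C_mul, hX]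
    ring
  rw [hL, hR] at h8
  exact h8

end Main

end

end Pool.Agent.SC105
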