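import Pool.Agent.SC105.PartA

/-!
# Reduction modulo `u ^ p`
-/

namespace Pool.Agent.SC105

open Polynomial

noncomputable section

section Hom
variable {A B : Type*} [CommRing A] [CommRing B]

lemma map_hom_PP (f : A →+* B) (t u : A) : f (PP t u) = PP (f t) (f u) := by
  simp only [PP, map_add, map_mul, map_pow, map_ofNat]

lemma map_hom_q0 (f : A →+* B) (u : A) : f (q0 u) = q0 (f u) := by
  simp only [q0, map_add, map_sub, map_mul, map_pow, map_neg, map_ofNat]

lemma map_hom_q1 (f : A →+* B) (u : A) : f (q1 u) = q1 (f u) := by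
  simp only [q1, map_add, map_sub, map_mul, map_pow, map_ofNat, map_one]

lemma map_hom_al (f : A →+* B) (u : A) : f (al u) = al (f u) := by
  simp only [al, map_sub, map_mul, map_ofNat]

lemma map_hom_Thn (f : A →+* B) (t u : A) : f (Thn t u) = Thn (f t) (f u) := by
  simp only [Thn, d1, d2, map_add, map_sub, map_mul, map_ofNat, map_hom_q0, map_hom_q1,
    map_hom_al, map_hom_NN, map_hom_MM, map_hom_xi]

lemma map_hom_G1 (f : A →+* B) (K : ℕ) (t u : A) : f (G1 K t u) = G1 K (f t) (f u) := by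
  simp only [G1, map_sum, map_mul, map_pow, map_hom_xi]

lemma map_hom_G2 (f : A →+* B) (K : ℕ) (t u : A) : f (G2 K t u) = G2 K (f t) (f u) := by
  simp only [G2, map_sum, map_mul, map_pow, map_hom_NN, map_hom_MM]

end Hom

section Red
variable {S : Type*} [CommRing S] {p : ℕ} [hp : Fact p.Prime] [CharP S p]

lemma frob_NN (x : S) (hx : x ^ p = 0) : NN x ^ p = 100 := by
  have h := map_hom_NN (frobenius S p) x
  rw [frobenius_def, frobenius_def, hx] at h
  rw [h]; unfold NN; ring

lemma frob_MM (x : S) (hx : x ^ p = 0) : MM x ^ p = 0 := by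
  have h := map_hom_MM (frobenius S p) x
  rw [frobenius_def, frobenius_def, hx] at h
  rw [h]; unfold MM; ring

lemma frob_xi (x : S) (hx : x ^ p = 0) : xi x ^ p = 0 := by
  have h := map_hom_xi (frobenius S p) x
  rw [frobenius_def, frobenius_def, hx] at h
  rw [h]; unfold xi; ring

lemma frob_PP (x t : S) (hx : x ^ p = 0) : PP t x ^ p = (t ^ p) ^ 2 * (t ^ p + 2025) := by
  have h := map_hom_PP (frobenius S p) t x
  rw [frobenius_def, frobenius_def, frobenius_def, hx] at h
  rw [h]; unfold PP; ring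

lemma frob_nat (n : ℕ) : (n : S) ^ p = n := by
  have h := map_natCast (frobenius S p) n
  rwa [frobenius_def] at h

lemma hundred_pow (h5 : 5 < p) : (100 : S) ^ (p - 1) = 1 := by
  have h := congrArg (ZMod.castHom (dvd_refl p) S) (ZMod.pow_card_sub_one_eq_one (ne_100 h5))
  rw [map_pow, map_one, map_ofNat] at h
  exact h

lemma ne_45 (h5 : 5 < p) : (45 : ZMod p) ≠ 0 := by
  have := natCast_ne h5 (a := 45) (by
    intro q hq h
    have h2 : (45 : ℕ) = 3 ^ 2 * 5 := by norm_num
    rw [h2] at h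
    rcases (Nat.Prime.dvd_mul hq).1 h with h | h
    · have := Nat.le_of_dvd (by norm_num) (hq.dvd_of_dvd_pow h); omega
    · exact Nat.le_of_dvd (by norm_num) h)
  exact_mod_cast this

lemma pow_2025 {m : ℕ} (hm : p = 2 * m + 1) (h5 : 5 < p) : (2025 : S) ^ m = 1 := by
  have h := congrArg (ZMod.castHom (dvd_refl p) S) (pow_half 45 (ne_45 h5) hm)
  rw [map_pow, map_pow, map_one, map_ofNat] at h
  rw [← h]; norm_num

lemma G1_red (x t : S) (hx : x ^ p = 0) (N : ℕ) : G1 (N + p) t x = t ^ N * G1 p t x := by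
  unfold G1
  rw [Finset.sum_range_add, Finset.mul_sum, Finset.sum_eq_zero, zero_add]
  · apply Finset.sum_congr rfl
    intro i hi
    have hi' := Finset.mem_range.1 hi
    have e : N + p - 1 - (N + i) = p - 1 - i := by omega
    rw [e, pow_add]; ring
  · intro i hi
    have hi' := Finset.mem_range.1 hi
    have e : N + p - 1 - i = p + (N - 1 - i) := by omega
    rw [e, pow_add, frob_xi x hx]; ring

lemma G2_red (x t : S) (hx : x ^ p = 0) (N : ℕ) : G2 (N + p) t x = NN x ^ N * G2 p t x := by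
  unfold G2
  rw [Finset.sum_range_add, Finset.mul_sum, Finset.sum_eq_zero, zero_add]
  · apply Finset.sum_congr rfl
    intro i hi
    have hi' := Finset.mem_range.1 hi
    have e : N + p - 1 - (N + i) = p - 1 - i := by omega
    rw [e, pow_add]; ring
  · intro i hi
    have hi' := Finset.mem_range.1 hi
    have e : N + p - 1 - i = p + (N - 1 - i) := by omega
    rw [e, pow_add, mul_pow, frob_MM x hx]; ring

/-- the full reduction, as an identity in a ring of characteristic `p` -/
lemma red_id {m : ℕ} (hm : p = 2 * m + 1) (h5 : 5 < p) (x t : S) (hx : x ^ p = 0) :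
    Thn t x * (G1 (p * p) t x * G2 (p * p) t x) * PP t x ^ (m * (p + 1)) =
    t ^ (p * p) * (t ^ (p * (2 * m)) *
      (10 * ((q0 x - q1 x * t) * PP t x ^ m * G2 p t x) * (t ^ p + 2025) ^ m))
    + t ^ (p * (2 * m)) * (t ^ (p * (2 * m)) *
      (100 * al x * (G1 p t x * PP t x ^ m) * (t ^ p + 2025) ^ m)) := by
  have eK : p * p = p * (2 * m) + p := by
    have : p * p = p * (2 * m + 1) := by rw [← hm]
    rw [this]; ring
  have hN : NN x ^ (p * (2 * m)) = 1 := by
    rw [pow_mul, frob_NN x hx]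
    have : 2 * m = p - 1 := by omega
    rw [this]; exact hundred_pow h5
  have h1 : d1 t x * G1 (p * p) t x = t ^ (p * p) := by
    rw [d1_G1, pow_mul (xi x), frob_xi x hx, zero_pow hp.out.ne_zero, sub_zero]
  have h100 : (100 : S) ^ p = 100 := by
    have := frob_nat (S := S) (p := p) 100
    exact_mod_cast this
  have h2 : d2 t x * G2 (p * p) t x = 100 := by
    rw [d2_G2, pow_mul (NN x), frob_NN x hx, mul_pow, pow_mul (MM x), frob_MM x hx,
      zero_pow hp.out.ne_zero, zero_mul, sub_zero, h100]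
  have h3 : G1 (p * p) t x = t ^ (p * (2 * m)) * G1 p t x := by
    rw [eK]; exact G1_red x t hx _
  have h4 : G2 (p * p) t x = G2 p t x := by
    rw [eK, G2_red x t hx, hN, one_mul]
  have h5 : PP t x ^ (m * (p + 1)) = PP t x ^ m * (t ^ (p * (2 * m)) * (t ^ p + 2025) ^ m) := by
    have e : m * (p + 1) = m + p * m := by ring
    rw [e, pow_add, pow_mul, frob_PP x t hx, mul_pow, ← pow_mul, ← pow_mul]
  have h6 : Thn t x * (G1 (p * p) t x * G2 (p * p) t x) =
      10 * (q0 x - q1 x * t) * t ^ (p * p) * G2 p t x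
        + al x * (t ^ (p * (2 * m)) * G1 p t x) * 100 := by
    rw [← h3, ← h2, ← h4, ← h1]
    unfold Thn
    ring
  rw [h6, h5]
  ring

end Red

section Coe
variable {S : Type*} [CommRing S]

lemma pow_expand (a : S) (p m : ℕ) : ∃ (c : S) (V : S[X]),
    ((X : S[X]) ^ p + C a) ^ m = C (a ^ m) + C c * X ^ p + X ^ (2 * p) * V := by
  induction m with
  | zero => exact ⟨0, 0, by simp⟩
  | succ m ih =>
    obtain ⟨c, V, h⟩ := ih
    refine ⟨c * a + a ^ m, C c + V * (X ^ p + C a), ?_⟩
    rw [pow_succ, h]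
    simp only [map_add, map_mul, map_pow]
    ring

lemma coeff_low {p n : ℕ} (a : S) (m : ℕ) (hn : n < p) (W : S[X]) :
    (W * ((X : S[X]) ^ p + C a) ^ m).coeff n = a ^ m * W.coeff n := by
  obtain ⟨c, V, h⟩ := pow_expand a p m
  have e : W * (C (a ^ m) + C c * X ^ p + X ^ (2 * p) * V) =
      C (a ^ m) * W + X ^ p * (C c * W) + X ^ (2 * p) * (W * V) := by ring
  rw [h, e, coeff_add, coeff_add, coeff_C_mul, coeff_X_pow_mul', coeff_X_pow_mul',
    if_neg (by omega), if_neg (by omega), add_zero, add_zero]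

lemma coeff_high {p : ℕ} (a : S) (m : ℕ) (hp : 0 < p) (W : S[X]) (hW : W.coeff (p - 1) = 0) :
    (W * ((X : S[X]) ^ p + C a) ^ m).coeff (2 * p - 1) = a ^ m * W.coeff (2 * p - 1) := by
  obtain ⟨c, V, h⟩ := pow_expand a p m
  have e : W * (C (a ^ m) + C c * X ^ p + X ^ (2 * p) * V) =
      C (a ^ m) * W + X ^ p * (C c * W) + X ^ (2 * p) * (W * V) := by ring
  rw [h, e, coeff_add, coeff_add, coeff_C_mul, coeff_X_pow_mul', coeff_X_pow_mul',
    if_pos (by omega), if_neg (by omega), coeff_C_mul]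
  have e2 : 2 * p - 1 - p = p - 1 := by omega
  rw [e2, hW, mul_zero, add_zero, add_zero]

lemma coeff_G1 {p : ℕ} (x : S) (W : S[X]) (n : ℕ) (hn : p - 1 ≤ n) :
    (G1 p (X : S[X]) (C x) * W).coeff n =
      ∑ j ∈ Finset.range p, xi x ^ j * W.coeff (n - (p - 1) + j) := by
  unfold G1
  rw [Finset.sum_mul, finsetSum_coeff, ← Finset.sum_range_reflect]
  apply Finset.sum_congr rfl
  intro j hj
  have hj' := Finset.mem_range.1 hj
  have e1 : p - 1 - (p - 1 - j) = j := by omega
  have e2 : n - (p - 1 - j) = n - (p - 1) + j := by omega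
  have e3 : (X : S[X]) ^ (p - 1 - j) * xi (C x) ^ j * W =
      X ^ (p - 1 - j) * (C (xi x ^ j) * W) := by
    rw [map_pow, map_hom_xi C]; ring
  rw [e1, e3, coeff_X_pow_mul', if_pos (by omega), coeff_C_mul, e2]

lemma coeff_G2 {p : ℕ} (hp : 0 < p) (x : S) (W : S[X]) :
    (W * G2 p (X : S[X]) (C x)).coeff (p - 1) =
      ∑ k ∈ Finset.range p, W.coeff k * NN x ^ k * MM x ^ (p - 1 - k) := by
  unfold G2
  rw [Finset.mul_sum, finsetSum_coeff]
  apply Finset.sum_congr rfl
  intro k hk
  have hk' := Finset.mem_range.1 hk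
  have e3 : W * (NN (C x) ^ k * (MM (C x) * X) ^ (p - 1 - k)) =
      X ^ (p - 1 - k) * (C (NN x ^ k * MM x ^ (p - 1 - k)) * W) := by
    rw [map_mul, map_pow, map_pow, map_hom_NN C, map_hom_MM C, mul_pow]; ring
  have e2 : p - 1 - (p - 1 - k) = k := by omega
  rw [e3, coeff_X_pow_mul', if_pos (by omega), coeff_C_mul, e2]
  ring

end Coe

section Red2
variable {S : Type*} [CommRing S] {p : ℕ} [hp : Fact p.Prime] [CharP S p]

theorem red_coeff {m : ℕ} (hm : p = 2 * m + 1) (h5 : 5 < p) (x : S) (hx : x ^ p = 0)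
    (hO : ∀ j, x ^ (2 * m - j) ∣ (PP (X : S[X]) (C x) ^ m).coeff j) :
    (Thn (X : S[X]) (C x) * (G1 (p * p) X (C x) * G2 (p * p) X (C x))
      * PP X (C x) ^ (m * (p + 1))).coeff (2 * (p * p) - 1) =
    100 * (∑ j ∈ Finset.range p, al x * xi x ^ j * (PP (X : S[X]) (C x) ^ m).coeff (p + j))
    + 10 * ∑ k ∈ Finset.range p, ((q0 (C x) - q1 (C x) * (X : S[X])) *
      PP (X : S[X]) (C x) ^ m).coeff k * NN x ^ k * MM x ^ (p - 1 - k) := by
  have hp0 := hp.out.pos
  have hx' : (C x : S[X]) ^ p = 0 := by rw [← map_pow, hx, map_zero]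
  rw [red_id hm h5 (C x) X hx', coeff_add]
  have eK : p * p = p * (2 * m) + p := by
    have : p * p = p * (2 * m + 1) := by rw [← hm]
    rw [this]; ring
  have e2025 : (2025 : S[X]) = C 2025 := (map_ofNat C 2025).symm
  rw [coeff_X_pow_mul', if_pos (by omega), coeff_X_pow_mul', if_pos (by omega),
    coeff_X_pow_mul', if_pos (by omega), coeff_X_pow_mul', if_pos (by omega)]
  have i1 : 2 * (p * p) - 1 - p * p - p * (2 * m) = p - 1 := by omega
  have i2 : 2 * (p * p) - 1 - p * (2 * m) - p * (2 * m) = 2 * p - 1 := by omega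
  rw [i1, i2, e2025, coeff_low _ _ (by omega), pow_2025 hm h5, one_mul]
  have h1 : (10 * ((q0 (C x) - q1 (C x) * (X : S[X])) * PP X (C x) ^ m * G2 p X (C x)) :
      S[X]).coeff (p - 1) = 10 * ∑ k ∈ Finset.range p, ((q0 (C x) - q1 (C x) * (X : S[X])) *
      PP (X : S[X]) (C x) ^ m).coeff k * NN x ^ k * MM x ^ (p - 1 - k) := by
    rw [← map_ofNat C 10, coeff_C_mul, coeff_G2 hp0]
  have h2 : ∀ n, p - 1 ≤ n → (100 * al (C x) * (G1 p X (C x) * PP X (C x) ^ m) : S[X]).coeff n =
      100 * ∑ j ∈ Finset.range p, al x * xi x ^ j *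
        (PP (X : S[X]) (C x) ^ m).coeff (n - (p - 1) + j) := by
    intro n hn
    have e : (100 * al (C x) * (G1 p X (C x) * PP X (C x) ^ m) : S[X]) =
        C (100 * al x) * (G1 p X (C x) * PP X (C x) ^ m) := by
      rw [map_mul, map_hom_al C, map_ofNat C 100]
    rw [e, coeff_C_mul, coeff_G1 _ _ _ hn, mul_assoc, Finset.mul_sum]
    congr 1
    apply Finset.sum_congr rfl
    intro j _
    ring
  have h3 : (100 * al (C x) * (G1 p X (C x) * PP X (C x) ^ m) : S[X]).coeff (p - 1) = 0 := by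
    rw [h2 _ le_rfl, Finset.sum_eq_zero, mul_zero]
    intro j hj
    have hj' := Finset.mem_range.1 hj
    have e : p - 1 - (p - 1) + j = j := by omega
    rw [e]
    obtain ⟨w, hw⟩ := hO j
    have hxi : xi x ^ j = x ^ j * (3 * (2 * x - 5)) ^ j := by
      rw [← mul_pow]; congr 1; unfold xi; ring
    have hal : al x = x * (210 * (14 * x - 5)) := by unfold al; ring
    have hpw : x * x ^ j * x ^ (2 * m - j) = 0 := by
      rw [← pow_succ', ← pow_add]
      have e2 : j + 1 + (2 * m - j) = p := by omega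
      rw [e2, hx]
    rw [hw, hxi, hal]
    linear_combination (210 * (14 * x - 5) * (3 * (2 * x - 5)) ^ j * w) * hpw
  rw [h1, coeff_high _ _ hp0 _ h3, pow_2025 hm h5, one_mul, h2 _ (by omega)]
  have e : 2 * p - 1 - (p - 1) = p := by omega
  rw [e, add_comm]

end Red2

end

end Pool.Agent.SC105
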