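import Pool.Agent.SC105.Ode

/-!
# Swapping the variables, orders and Cartier operator
-/

namespace Pool.Agent.SC105

open Polynomial

noncomputable section

section Swap
variable {R : Type*} [CommRing R]

lemma coeff_swap (F : R[X][X]) (a i : ℕ) :
    ((Bivariate.swap (R := R) F).coeff a).coeff i = (F.coeff i).coeff a := by
  induction F using Polynomial.induction_on' with
  | add p q hp hq => rw [map_add, coeff_add, coeff_add, coeff_add, coeff_add, hp, hq]
  | monomial n f =>
    induction f using Polynomial.induction_on' with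
    | add p q hp hq =>
      rw [map_add (monomial n), map_add, coeff_add, coeff_add, coeff_add, coeff_add, hp, hq]
    | monomial m r =>
      rw [Bivariate.swap_monomial_monomial]
      by_cases h1 : m = a
      · by_cases h2 : n = i
        · simp [coeff_monomial, h1, h2]
        · simp [coeff_monomial, h1, h2]
      · by_cases h2 : n = i
        · simp [coeff_monomial, h1, h2]
        · simp [coeff_monomial, h1, h2]

lemma cub0 (a b c d : R) : (C a * X ^ 3 + C b * X ^ 2 + C c * X + C d : R[X]).coeff 0 = d := by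
  simp
lemma cub1 (a b c d : R) : (C a * X ^ 3 + C b * X ^ 2 + C c * X + C d : R[X]).coeff 1 = c := by
  simp [coeff_X, coeff_C]
lemma cub2 (a b c d : R) : (C a * X ^ 3 + C b * X ^ 2 + C c * X + C d : R[X]).coeff 2 = b := by
  simp [coeff_X, coeff_C]
lemma cub3 (a b c d : R) : (C a * X ^ 3 + C b * X ^ 2 + C c * X + C d : R[X]).coeff 3 = a := by
  simp [coeff_X, coeff_C]

/-- `F` lies in the `d`-th power of the ideal `(t, u)` -/
def Ord (d : ℕ) (F : R[X][X]) : Prop := ∀ j, X ^ (d - j) ∣ F.coeff j

lemma Ord.mul {d e : ℕ} {F G : R[X][X]} (hF : Ord d F) (hG : Ord e G) : Ord (d + e) (F * G) := by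
  intro n
  rw [coeff_mul]
  apply Finset.dvd_sum
  intro x hx
  have h1 := Finset.HasAntidiagonal.mem_antidiagonal.1 hx
  have h2 := mul_dvd_mul (hF x.1) (hG x.2)
  rw [← pow_add] at h2
  exact dvd_trans (pow_dvd_pow X (by omega)) h2

lemma Ord.one : Ord 0 (1 : R[X][X]) := by
  intro j; simp

lemma Ord.pow {d : ℕ} {F : R[X][X]} (hF : Ord d F) (m : ℕ) : Ord (m * d) (F ^ m) := by
  induction m with
  | zero => simpa using Ord.one
  | succ m ih => rw [pow_succ, Nat.succ_mul]; exact ih.mul hF

lemma PP_cub : (PP tt uu : R[X][X]) = C 1 * X ^ 3 + C (81 * (5 + 3 * X) ^ 2) * X ^ 2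
      + C (12150 * X * (5 + 3 * X)) * X + C (455625 * X ^ 2) := by
  unfold PP
  simp only [map_add, map_mul, map_pow, map_ofNat, map_one]
  ring

lemma PP_coeff_zero : (PP tt uu : R[X][X]).coeff 0 = 455625 * X ^ 2 := by
  rw [PP_cub, cub0]

lemma PP_coeff_one : (PP tt uu : R[X][X]).coeff 1 = 12150 * X * (5 + 3 * X) := by
  rw [PP_cub, cub1]

lemma Ord_PP : Ord 2 (PP tt uu : R[X][X]) := by
  intro j
  rcases j with _ | _ | j
  · rw [PP_coeff_zero]; exact ⟨455625, by ring⟩
  · rw [zero_add, PP_coeff_one]; exact ⟨12150 * (5 + 3 * X), by ring⟩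
  · simp

/-- the polynomial with the variables swapped: `t = C X`, `u = X` -/
lemma swap_PP : Bivariate.swap (R := R) (PP tt uu) = PP (C X : R[X][X]) X := by
  unfold PP
  simp only [map_add, map_mul, map_pow, map_ofNat]
  have h1 : Bivariate.swap (R := R) tt = C X := Bivariate.swap_Y
  have h2 : Bivariate.swap (R := R) uu = X := Bivariate.swap_X
  rw [h1, h2]

lemma PP'_cub : (PP (C X : R[X][X]) X : R[X][X]) = C 0 * X ^ 3 + C (729 * (X + 25) ^ 2) * X ^ 2
      + C (30 * X * (81 * X + 2025)) * X + C (X ^ 3 + 2025 * X ^ 2) := by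
  unfold PP
  simp only [map_add, map_mul, map_pow, map_ofNat, map_zero]
  ring

lemma PP'_natDegree : (PP (C X : R[X][X]) X : R[X][X]).natDegree ≤ 2 := by
  rw [PP'_cub]
  have h : ∀ b c d : R[X], (C 0 * X ^ 3 + C b * X ^ 2 + C c * X + C d : R[X][X]).natDegree ≤ 2 := by
    intro b c d
    rw [map_zero, zero_mul, zero_add]
    compute_degree
  exact h _ _ _

lemma PP'_coeff_two : (PP (C X : R[X][X]) X : R[X][X]).coeff 2 = 729 * (X + 25) ^ 2 := by
  rw [PP'_cub, cub2]

end Swap

end

end Pool.Agent.SC105
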