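import Pool.Agent.SC105.Gn

/-!
# Telescoping
-/

namespace Pool.Agent.SC105

open Polynomial

section
variable {R : Type*} [CommRing R]

lemma tele_aux {p M : ℕ} (h2 : IsUnit (2 : R)) (hK : ((2 * M + 1 : ℕ) : R) = 0)
    (hM1 : 1 ≤ M)
    (hu : ∀ i : ℕ, 0 < i → i < p → IsUnit (i : R)) (hpM : 3 * p ≤ 2 * M) :
    ∀ N : ℕ, N < p →
    ∑ n ∈ Finset.range (N + 1), (45 ^ (2 * M) * 10 * 100 ^ (2 * M + 1)) *
      ((357 * n + 103) * ((2 * n).choose n : R) * (g n : R)) * 4 ^ (N - n) * 540 ^ (p - 1 - n) =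
    540 ^ (p - 1) * ((2 * N + 1) * ((2 * N).choose N : R) *
      (Psi R (2 * M + 1) M).coeff N) := by
  have hM : (2 * M : R) = -1 := by
    push_cast at hK
    linear_combination hK
  intro N
  induction N with
  | zero =>
    intro hp
    have h1 := rec_Psi (p := p) h2 hK hM hM1 (by omega) (by omega) hu (n := 0) hp
    have h3 := Et_g hM hu hpM (n := 0) hp
    simp only [Nat.cast_zero, mul_zero, zero_add, one_mul, zero_mul, sub_zero] at h1
    simp only [pow_zero, one_mul] at h3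
    simp only [zero_add, Finset.sum_range_one, Nat.cast_zero, mul_zero, Nat.choose_zero_right,
      Nat.cast_one, Nat.sub_zero, pow_zero, mul_one, one_mul]
    rw [h1]
    linear_combination (-(10 * 100 ^ (2 * M + 1) * 103 * 540 ^ (p - 1))) * h3
  | succ N ih =>
    intro hp
    have ih' := ih (by omega)
    have h1 := rec_Psi (p := p) h2 hK hM hM1 (by omega) (by omega) hu (n := N + 1) hp
    have h3 := Et_g hM hu hpM (n := N + 1) hp
    rw [Finset.sum_range_succ]
    have e1 : ∑ n ∈ Finset.range (N + 1), (45 ^ (2 * M) * 10 * 100 ^ (2 * M + 1)) *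
        ((357 * n + 103) * ((2 * n).choose n : R) * (g n : R)) * 4 ^ (N + 1 - n)
          * 540 ^ (p - 1 - n) =
        4 * ∑ n ∈ Finset.range (N + 1), (45 ^ (2 * M) * 10 * 100 ^ (2 * M + 1)) *
        ((357 * n + 103) * ((2 * n).choose n : R) * (g n : R)) * 4 ^ (N - n)
          * 540 ^ (p - 1 - n) := by
      rw [Finset.mul_sum]
      apply Finset.sum_congr rfl
      intro n hn
      rw [Finset.mem_range] at hn
      have e2 : N + 1 - n = (N - n) + 1 := by omega
      rw [e2, pow_succ]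
      ring
    rw [e1, ih']
    have h4 : (540 : R) ^ (p - 1) = 540 ^ (p - 1 - (N + 1)) * 540 ^ (N + 1) := by
      rw [← pow_add]; congr 1; omega
    have h5 : ((N + 1 : ℕ) : R) * (((2 * (N + 1)).choose (N + 1) : ℕ) : R) =
        2 * (2 * N + 1) * (((2 * N).choose N : ℕ) : R) := by
      have := congrArg (Nat.cast : ℕ → R) (Nat.succ_mul_centralBinom_succ N)
      unfold Nat.centralBinom at this
      push_cast at this ⊢
      exact this
    have e6 : N + 1 - (N + 1) = 0 := by omega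
    rw [e6, pow_zero, mul_one]
    simp only [Nat.add_sub_cancel] at h1
    rw [h4]
    push_cast at h1 h5 ⊢
    generalize (((2 * (N + 1)).choose (N + 1) : ℕ) : R) = b at *
    generalize (((2 * N).choose N : ℕ) : R) = a at *
    generalize (540 : R) ^ (p - 1 - (N + 1)) = c at *
    generalize (45 : R) ^ (2 * M) = d at *
    generalize (100 : R) ^ (2 * M + 1) = e at *
    generalize ((g (N + 1) : ℤ) : R) = gg at *
    linear_combination (-(10 * e * (357 * (N + 1) + 103) * b * c)) * h3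
      - (540 ^ (N + 1) * b * c) * h1
      - (2 * c * 540 ^ (N + 1) * (Psi R (2 * M + 1) M).coeff N) * h5

theorem tele {p M : ℕ} (h2 : IsUnit (2 : R)) (hK : ((2 * M + 1 : ℕ) : R) = 0)
    (hM1 : 1 ≤ M) (hp1 : 1 ≤ p)
    (hu : ∀ i : ℕ, 0 < i → i < p → IsUnit (i : R)) (hpM : 3 * p ≤ 2 * M) :
    45 ^ (2 * M) * 10 * 100 ^ (2 * M + 1) *
      ∑ n ∈ Finset.range p, (357 * n + 103) * (((2 * n).choose n : R) * (g n : R))
        * 2160 ^ (p - 1 - n) =
    540 ^ (p - 1) * ((2 * p - 1) * ((2 * (p - 1)).choose (p - 1) : R) *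
      (Psi R (2 * M + 1) M).coeff (p - 1)) := by
  obtain ⟨N, rfl⟩ : ∃ N, p = N + 1 := ⟨p - 1, by omega⟩
  have h := tele_aux h2 hK hM1 hu hpM N (by omega)
  simp only [Nat.add_sub_cancel] at h ⊢
  rw [Finset.mul_sum]
  have e : (2 * ((N + 1 : ℕ) : R) - 1) = 2 * N + 1 := by push_cast; ring
  rw [e, ← h]
  apply Finset.sum_congr rfl
  intro n _
  have e2 : (2160 : R) ^ (N - n) = 4 ^ (N - n) * 540 ^ (N - n) := by
    rw [← mul_pow]; norm_num
  rw [e2]
  ring

end

end Pool.Agent.SC105
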