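import Pool.Agent.SC105.Red
import Pool.Agent.SC105.Tele

/-!
# The value of the coefficient of `Psi` modulo `p`
-/

namespace Pool.Agent.SC105

open Polynomial

noncomputable section

section Val
variable {p : ℕ} [hp : Fact p.Prime]

lemma Psi_congr {m : ℕ} (hm : p = 2 * m + 1) (h5 : 5 < p) :
    (X : (ZMod p)[X]) ^ p ∣ Psi (ZMod p) (p * p) (m * (p + 1)) -
      (100 * A1 p m + 10 * YY p m) := by
  have hp0 := hp.out.pos
  have hdeg : ((X : (ZMod p)[X]) ^ p).degree ≠ 0 := by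
    rw [degree_X_pow]
    intro h
    have : p = 0 := by exact_mod_cast h
    omega
  have hnt : Nontrivial (AdjoinRoot ((X : (ZMod p)[X]) ^ p)) := AdjoinRoot.nontrivial _ hdeg
  have hchar : CharP (AdjoinRoot ((X : (ZMod p)[X]) ^ p)) p :=
    charP_of_injective_algebraMap
      (algebraMap (ZMod p) (AdjoinRoot ((X : (ZMod p)[X]) ^ p))).injective p
  rw [← AdjoinRoot.mk_eq_mk]
  have hx : (AdjoinRoot.mk ((X : (ZMod p)[X]) ^ p) X) ^ p = 0 := by
    rw [← map_pow, AdjoinRoot.mk_self]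
  have hPP : ∀ k, (PP (X : (AdjoinRoot ((X : (ZMod p)[X]) ^ p))[X])
      (C (AdjoinRoot.mk ((X : (ZMod p)[X]) ^ p) X)) ^ m).coeff k =
      AdjoinRoot.mk ((X : (ZMod p)[X]) ^ p) ((PP tt uu ^ m : (ZMod p)[X][X]).coeff k) := by
    intro k
    have h := map_hom_PP (mapRingHom (AdjoinRoot.mk ((X : (ZMod p)[X]) ^ p))) (tt) (uu)
    rw [coe_mapRingHom, map_X, map_C] at h
    rw [← h, ← Polynomial.map_pow, coeff_map]
  have hO : ∀ j, (AdjoinRoot.mk ((X : (ZMod p)[X]) ^ p) X) ^ (2 * m - j) ∣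
      (PP (X : (AdjoinRoot ((X : (ZMod p)[X]) ^ p))[X])
      (C (AdjoinRoot.mk ((X : (ZMod p)[X]) ^ p) X)) ^ m).coeff j := by
    intro j
    rw [hPP, ← map_pow]
    apply _root_.map_dvd
    have := (Ord_PP (R := ZMod p)).pow m j
    rwa [Nat.mul_comm m 2] at this
  have key := red_coeff hm h5 _ hx hO
  have hL : (Thn (X : (AdjoinRoot ((X : (ZMod p)[X]) ^ p))[X])
      (C (AdjoinRoot.mk ((X : (ZMod p)[X]) ^ p) X)) *
      (G1 (p * p) X (C (AdjoinRoot.mk ((X : (ZMod p)[X]) ^ p) X)) *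
        G2 (p * p) X (C (AdjoinRoot.mk ((X : (ZMod p)[X]) ^ p) X)))
      * PP X (C (AdjoinRoot.mk ((X : (ZMod p)[X]) ^ p) X)) ^ (m * (p + 1))).coeff
        (2 * (p * p) - 1) = AdjoinRoot.mk ((X : (ZMod p)[X]) ^ p)
          (Psi (ZMod p) (p * p) (m * (p + 1))) := by
    unfold Psi
    rw [← coeff_map, ← coe_mapRingHom, map_mul, map_mul, map_mul, map_pow, map_hom_Thn,
      map_hom_G1, map_hom_G2, map_hom_PP, coe_mapRingHom, map_X, map_C]
  rw [← hL, key, map_add, map_mul, map_mul, map_ofNat, map_ofNat]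
  congr 2
  · unfold A1
    rw [map_sum]
    apply Finset.sum_congr rfl
    intro j _
    rw [map_mul, map_mul, map_pow, map_hom_al, map_hom_xi, hPP]
  · unfold YY
    rw [map_sum]
    apply Finset.sum_congr rfl
    intro k _
    rw [map_mul, map_mul, map_pow, map_pow, map_hom_NN, map_hom_MM]
    congr 2
    unfold QQ
    rw [← coeff_map, ← coe_mapRingHom, map_mul, map_sub, map_mul, map_pow, map_hom_q0, map_hom_q1,
      map_hom_PP, coe_mapRingHom, map_X, map_C]

theorem Psi_value {m : ℕ} (hm : p = 2 * m + 1) (h5 : 5 < p) :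
    (Psi (ZMod p) (p * p) (m * (p + 1))).coeff (p - 1) =
      49000 * 26460 ^ m + 54000 * (-1) ^ m := by
  have h := coeff_of_X_pow_dvd (by have := hp.out.pos; omega : p - 1 < p) (Psi_congr hm h5)
  have e : (100 * A1 p m + 10 * YY p m) = C 100 * A1 p m + C 10 * YY p m := by
    rw [map_ofNat C 100, map_ofNat C 10]
  rw [coeff_sub, e, coeff_add, coeff_C_mul, coeff_C_mul, A1_value hm h5, YY_value hm h5] at h
  linear_combination h

end Val

section Nat
variable {R R' : Type*} [CommRing R] [CommRing R']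

lemma Psi_map (f : R →+* R') (K M n : ℕ) :
    f ((Psi R K M).coeff n) = (Psi R' K M).coeff n := by
  have hu : (mapRingHom (mapRingHom f)) (uu : R[X][X]) = uu := by
    rw [coe_mapRingHom, map_C, coe_mapRingHom, map_X]
  have ht : (mapRingHom (mapRingHom f)) (tt : R[X][X]) = tt := by
    rw [coe_mapRingHom, map_X]
  have h : (mapRingHom (mapRingHom f)) (Thn tt uu * (G1 K tt uu * G2 K tt uu) * PP tt uu ^ M :
      R[X][X]) = (Thn tt uu * (G1 K tt uu * G2 K tt uu) * PP tt uu ^ M : R'[X][X]) := by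
    rw [map_mul, map_mul, map_mul, map_pow, map_hom_Thn, map_hom_G1, map_hom_G2, map_hom_PP,
      hu, ht]
  unfold Psi
  rw [← h, coe_mapRingHom, coeff_map, coe_mapRingHom, coeff_map]

end Nat

end

end Pool.Agent.SC105
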